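import Mathlib

set_option autoImplicit false

namespace Pool.Agent.Helper76.Recol

variable {V : Type} [DecidableEq V] (G : SimpleGraph V)

/-- `c` is a proper colouring of `G[U]` with colours in `K`. -/
def ProperOn (U : Finset V) (K : Finset ℕ) (c : V → ℕ) : Prop :=
  (∀ u ∈ U, c u ∈ K) ∧ ∀ u ∈ U, ∀ v ∈ U, G.Adj u v → c u ≠ c v

/-- one recolouring step inside `U` -/
def Step (U : Finset V) (K : Finset ℕ) (c c' : V → ℕ) : Prop :=
  ProperOn G U K c ∧ ProperOn G U K c' ∧ ∃ v ∈ U, ∃ x, c' = Function.update c v x

/-- reachability by recolouring steps inside `U` -/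
def Reach (U : Finset V) (K : Finset ℕ) : (V → ℕ) → (V → ℕ) → Prop :=
  Relation.ReflTransGen (Step G U K)

/-- all proper colourings of `G[U]` with colours in `K` are connected -/
def MixOn (U : Finset V) (K : Finset ℕ) : Prop :=
  ∀ c d : V → ℕ, ProperOn G U K c → ProperOn G U K d → (∀ v, v ∉ U → c v = d v) →
    Reach G U K c d

/-- `G[U]` is colourable by `k` colours -/
def ColOn (U : Finset V) (k : ℕ) : Prop :=
  ∃ f : V → ℕ, ProperOn G U (Finset.range k) f

variable {G}

theorem Step.symm {U : Finset V} {K : Finset ℕ} {c c' : V → ℕ} (h : Step G U K c c') :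
    Step G U K c' c := by
  obtain ⟨h1, h2, v, hv, x, rfl⟩ := h
  refine ⟨h2, h1, v, hv, c v, ?_⟩
  simp

theorem Reach.symm {U : Finset V} {K : Finset ℕ} {c c' : V → ℕ} (h : Reach G U K c c') :
    Reach G U K c' c := by
  induction h with
  | refl => exact Relation.ReflTransGen.refl
  | tail _ h2 ih => exact Relation.ReflTransGen.head h2.symm ih

theorem Reach.refl {U : Finset V} {K : Finset ℕ} (c : V → ℕ) : Reach G U K c c :=
  Relation.ReflTransGen.refl

theorem Reach.trans {U : Finset V} {K : Finset ℕ} {c d e : V → ℕ} (h1 : Reach G U K c d)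
    (h2 : Reach G U K d e) : Reach G U K c e := Relation.ReflTransGen.trans h1 h2

theorem Reach.single {U : Finset V} {K : Finset ℕ} {c c' : V → ℕ} (h : Step G U K c c') :
    Reach G U K c c' := Relation.ReflTransGen.single h

/-- a reachable colouring agrees outside `U` -/
theorem Reach.agree {U : Finset V} {K : Finset ℕ} {c d : V → ℕ} (h : Reach G U K c d) :
    ∀ v, v ∉ U → d v = c v := by
  induction h with
  | refl => intro v _; rfl
  | tail _ h2 ih =>
    intro v hv
    obtain ⟨_, _, w, hw, x, rfl⟩ := h2
    have : v ≠ w := fun h => hv (h ▸ hw)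
    rw [Function.update_of_ne this]
    exact ih v hv

theorem Reach.properOn {U : Finset V} {K : Finset ℕ} {c d : V → ℕ} (h : Reach G U K c d)
    (hc : ProperOn G U K c) : ProperOn G U K d := by
  induction h with
  | refl => exact hc
  | tail _ h2 _ => exact h2.2.1

theorem ProperOn.mono {U U' : Finset V} {K K' : Finset ℕ} {c : V → ℕ}
    (h : ProperOn G U' K c) (hU : U ⊆ U') (hK : K ⊆ K') : ProperOn G U K' c :=
  ⟨fun u hu => hK (h.1 u (hU hu)), fun u hu v hv => h.2 u (hU hu) v (hU hv)⟩

/-- Lifting reachability from `(U, K)` to `(U', K')` when the vertices outside `U` have colours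
outside `K`. -/
theorem Reach.lift {U U' : Finset V} {K K' : Finset ℕ} {c d : V → ℕ}
    (h : Reach G U K c d) (hU : U ⊆ U') (hK : K ⊆ K') (hc : ProperOn G U' K' c)
    (hout : ∀ w ∈ U', w ∉ U → c w ∉ K) : Reach G U' K' c d := by
  induction h with
  | refl => exact Reach.refl _
  | @tail d e h1 h2 ih =>
    refine Reach.trans ih (Reach.single ?_)
    have hd : ProperOn G U' K' d := Reach.properOn ih hc
    have hag := Reach.agree h1
    obtain ⟨hd1, he1, w, hw, x, rfl⟩ := h2
    refine ⟨hd, ⟨?_, ?_⟩, w, hU hw, x, rfl⟩
    · intro u hu
      by_cases huw : u = w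
      · subst huw
        rw [Function.update_self]
        have := he1.1 u hw
        rw [Function.update_self] at this
        exact hK this
      · rw [Function.update_of_ne huw]
        exact hd.1 u hu
    · intro u hu v hv huv
      by_cases huU : u ∈ U
      · by_cases hvU : v ∈ U
        · exact he1.2 u huU v hvU huv
        · have h3 : v ≠ w := fun h => hvU (h ▸ hw)
          rw [Function.update_of_ne h3, hag v hvU]
          intro h4
          exact hout v hv hvU (h4 ▸ he1.1 u huU)
      · by_cases hvU : v ∈ U
        · have h3 : u ≠ w := fun h => huU (h ▸ hw)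
          rw [Function.update_of_ne h3, hag u huU]
          intro h4
          exact hout u hu huU (h4 ▸ he1.1 v hvU)
        · have h3 : u ≠ w := fun h => huU (h ▸ hw)
          have h5 : v ≠ w := fun h => hvU (h ▸ hw)
          rw [Function.update_of_ne h3, Function.update_of_ne h5]
          exact hd.2 u hu v hv huv

/-- Recolouring one vertex gives a step. -/
theorem step_update {U : Finset V} {K : Finset ℕ} {c : V → ℕ} (hc : ProperOn G U K c)
    {v : V} (hv : v ∈ U) {x : ℕ} (hx : x ∈ K) (hN : ∀ w ∈ U, G.Adj v w → c w ≠ x) :
    Step G U K c (Function.update c v x) := by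
  refine ⟨hc, ⟨?_, ?_⟩, v, hv, x, rfl⟩
  · intro u hu
    by_cases huv : u = v
    · subst huv
      rwa [Function.update_self]
    · rw [Function.update_of_ne huv]
      exact hc.1 u hu
  · intro u hu w hw huw
    by_cases huv : u = v
    · subst huv
      have hwu : w ≠ u := huw.ne'
      rw [Function.update_self, Function.update_of_ne hwu]
      exact (hN w hw huw).symm
    · by_cases hwv : w = v
      · subst hwv
        rw [Function.update_self, Function.update_of_ne huv]
        exact hN u hu huw.symm
      · rw [Function.update_of_ne huv, Function.update_of_ne hwv]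
        exact hc.2 u hu w hw huw

/-- (R1) A vertex `u` whose neighbourhood is contained in that of a non-neighbour `v` may be
deleted. -/
theorem mixOn_of_comparable {U : Finset V} {K : Finset ℕ} {u v : V} (hu : u ∈ U) (hv : v ∈ U)
    (huv : u ≠ v) (hadj : ¬ G.Adj u v) (hN : ∀ w ∈ U, G.Adj u w → G.Adj v w)
    (h : MixOn G (U.erase u) K) : MixOn G U K := by
  intro c d hc hd hcd
  have hsub : U.erase u ⊆ U := Finset.erase_subset _ _
  have hvU : v ∈ U.erase u := Finset.mem_erase.mpr ⟨huv.symm, hv⟩
  -- folding
  have fold : ∀ c : V → ℕ, ProperOn G U K c → Step G U K c (Function.update c u (c v)) :=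
    fun c hc => step_update hc hu (hc.1 v hv) fun w hw huw =>
      (hc.2 v hv w hw (hN w hw huw)).symm
  have s1 := fold c hc
  have s2 := fold d hd
  -- the path in `U - u`
  have hd' : ProperOn G (U.erase u) K (Function.update d u (c u)) := by
    refine ⟨?_, ?_⟩
    · intro w hw
      have hwu : w ≠ u := (Finset.mem_erase.mp hw).1
      rw [Function.update_of_ne hwu]
      exact hd.1 w (hsub hw)
    · intro w hw z hz hwz
      have hwu : w ≠ u := (Finset.mem_erase.mp hw).1
      have hzu : z ≠ u := (Finset.mem_erase.mp hz).1
      rw [Function.update_of_ne hwu, Function.update_of_ne hzu]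
      exact hd.2 w (hsub hw) z (hsub hz) hwz
  have hpath : Reach G (U.erase u) K c (Function.update d u (c u)) := by
    refine h c _ (hc.mono hsub (Finset.Subset.refl _)) hd' ?_
    intro w hw
    by_cases hwu : w = u
    · subst hwu
      rw [Function.update_self]
    · rw [Function.update_of_ne hwu]
      exact hcd w fun h => hw (Finset.mem_erase.mpr ⟨hwu, h⟩)
  -- lifting
  have key : ∀ e : V → ℕ, Reach G (U.erase u) K c e →
      Reach G U K (Function.update c u (c v)) (Function.update e u (e v)) := by
    intro e he
    induction he with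
    | refl => exact Reach.refl _
    | @tail e e' h1 h2 ih =>
      have hE : ProperOn G U K (Function.update e u (e v)) := Reach.properOn ih s1.2.1
      obtain ⟨he1, he1', w, hw, x, rfl⟩ := h2
      have hwu : w ≠ u := (Finset.mem_erase.mp hw).1
      have hwU : w ∈ U := (Finset.mem_erase.mp hw).2
      have hxK : x ∈ K := by
        have := he1'.1 w hw
        rwa [Function.update_self] at this
      -- neighbours of `w` avoid `x`
      have hNw : ∀ z ∈ U.erase u, G.Adj w z → e z ≠ x := by
        intro z hz hwz
        have h3 := he1'.2 w hw z hz hwz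
        rw [Function.update_self, Function.update_of_ne hwz.ne'] at h3
        exact h3.symm
      by_cases hwv : w = v
      · subst hwv
        have t1 : Step G U K (Function.update e u (e w))
            (Function.update (Function.update e u (e w)) w x) := by
          refine step_update hE hwU hxK ?_
          intro z hz hwz
          have hzu : z ≠ u := by
            rintro rfl
            exact hadj hwz.symm
          rw [Function.update_of_ne hzu]
          exact hNw z (Finset.mem_erase.mpr ⟨hzu, hz⟩) hwz
        have t2 : Step G U K (Function.update (Function.update e u (e w)) w x)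
            (Function.update (Function.update (Function.update e u (e w)) w x) u x) := by
          refine step_update t1.2.1 hu hxK ?_
          intro z hz huz
          have hzu : z ≠ u := huz.ne'
          have hzw : z ≠ w := by
            rintro rfl
            exact hadj huz
          rw [Function.update_of_ne hzw, Function.update_of_ne hzu]
          exact hNw z (Finset.mem_erase.mpr ⟨hzu, hz⟩) (hN z hz huz)
        have e1 : Function.update (Function.update (Function.update e u (e w)) w x) u x =
            Function.update (Function.update e w x) u (Function.update e w x w) := by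
          rw [Function.update_self, Function.update_comm huv, Function.update_idem]
        rw [← e1]
        exact Reach.trans ih (Reach.trans (Reach.single t1) (Reach.single t2))
      · have t1 : Step G U K (Function.update e u (e v))
            (Function.update (Function.update e u (e v)) w x) := by
          refine step_update hE hwU hxK ?_
          intro z hz hwz
          by_cases hzu : z = u
          · subst hzu
            rw [Function.update_self]
            exact hNw v hvU (hN w hwU hwz.symm).symm
          · rw [Function.update_of_ne hzu]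
            exact hNw z (Finset.mem_erase.mpr ⟨hzu, hz⟩) hwz
        have e1 : Function.update (Function.update e u (e v)) w x =
            Function.update (Function.update e w x) u (Function.update e w x v) := by
          rw [Function.update_of_ne (Ne.symm hwv), Function.update_comm hwu]
        rw [← e1]
        exact Reach.trans ih (Reach.single t1)
  have h3 := key _ hpath
  have e2 : Function.update (Function.update d u (c u)) u (Function.update d u (c u) v) =
      Function.update d u (d v) := by
    rw [Function.update_idem, Function.update_of_ne huv.symm]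
  rw [e2] at h3
  exact Reach.trans (Reach.single s1) (Reach.trans h3 (Reach.single s2).symm)

/-- (R2) A vertex with at most `|K| - 2` neighbours may be deleted. -/
theorem mixOn_of_small_degree {U : Finset V} {K : Finset ℕ} {v : V} (hv : v ∈ U)
    (N : Finset V) (hN : ∀ w ∈ U, G.Adj v w → w ∈ N) (hcard : N.card + 2 ≤ K.card)
    (h : MixOn G (U.erase v) K) : MixOn G U K := by
  intro c d hc hd hcd
  have hsub : U.erase v ⊆ U := Finset.erase_subset _ _
  have hd' : ProperOn G (U.erase v) K (Function.update d v (c v)) := by
    refine ⟨?_, ?_⟩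
    · intro w hw
      have hwu : w ≠ v := (Finset.mem_erase.mp hw).1
      rw [Function.update_of_ne hwu]
      exact hd.1 w (hsub hw)
    · intro w hw z hz hwz
      have hwu : w ≠ v := (Finset.mem_erase.mp hw).1
      have hzu : z ≠ v := (Finset.mem_erase.mp hz).1
      rw [Function.update_of_ne hwu, Function.update_of_ne hzu]
      exact hd.2 w (hsub hw) z (hsub hz) hwz
  have hpath : Reach G (U.erase v) K c (Function.update d v (c v)) := by
    refine h c _ (hc.mono hsub (Finset.Subset.refl _)) hd' ?_
    intro w hw
    by_cases hwu : w = v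
    · subst hwu
      rw [Function.update_self]
    · rw [Function.update_of_ne hwu]
      exact hcd w fun h => hw (Finset.mem_erase.mpr ⟨hwu, h⟩)
  have key : ∀ e : V → ℕ, Reach G (U.erase v) K c e →
      ∃ y, Reach G U K c (Function.update e v y) := by
    intro e he
    induction he with
    | refl => exact ⟨c v, by rw [Function.update_eq_self]; exact Reach.refl _⟩
    | @tail e e' h1 h2 ih =>
      obtain ⟨y, ih⟩ := ih
      have hE : ProperOn G U K (Function.update e v y) := Reach.properOn ih hc
      obtain ⟨he1, he1', w, hw, x, rfl⟩ := h2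
      have hwv : w ≠ v := (Finset.mem_erase.mp hw).1
      have hwU : w ∈ U := (Finset.mem_erase.mp hw).2
      have hxK : x ∈ K := by
        have := he1'.1 w hw
        rwa [Function.update_self] at this
      have hNw : ∀ z ∈ U.erase v, G.Adj w z → e z ≠ x := by
        intro z hz hwz
        have h3 := he1'.2 w hw z hz hwz
        rw [Function.update_self, Function.update_of_ne hwz.ne'] at h3
        exact h3.symm
      by_cases hbad : G.Adj w v ∧ y = x
      · -- first recolour `v`
        obtain ⟨hwva, rfl⟩ := hbad
        obtain ⟨z, hzK, hzx⟩ : ∃ z ∈ K, z ∉ insert y (N.image e) := by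
          have h5 : (insert y (N.image e)).card < K.card := by
            have h6 := Finset.card_insert_le y (N.image e)
            have h7 := Finset.card_image_le (s := N) (f := e)
            omega
          exact Finset.exists_mem_notMem_of_card_lt_card h5
        simp only [Finset.mem_insert, Finset.mem_image, not_or, not_exists, not_and] at hzx
        have t1 : Step G U K (Function.update e v y)
            (Function.update (Function.update e v y) v z) := by
          refine step_update hE hv hzK ?_
          intro t ht hvt
          rw [Function.update_of_ne hvt.ne']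
          exact hzx.2 t (hN t ht hvt)
        rw [Function.update_idem] at t1
        have t2 : Step G U K (Function.update e v z)
            (Function.update (Function.update e v z) w y) := by
          refine step_update t1.2.1 hwU hxK ?_
          intro t ht hwt
          by_cases htv : t = v
          · subst htv
            rw [Function.update_self]
            exact hzx.1
          · rw [Function.update_of_ne htv]
            exact hNw t (Finset.mem_erase.mpr ⟨htv, ht⟩) hwt
        rw [Function.update_comm hwv.symm] at t2
        exact ⟨z, Reach.trans ih (Reach.trans (Reach.single t1) (Reach.single t2))⟩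
      · have t1 : Step G U K (Function.update e v y)
            (Function.update (Function.update e v y) w x) := by
          refine step_update hE hwU hxK ?_
          intro t ht hwt
          by_cases htv : t = v
          · subst htv
            rw [Function.update_self]
            intro h7
            exact hbad ⟨hwt, h7⟩
          · rw [Function.update_of_ne htv]
            exact hNw t (Finset.mem_erase.mpr ⟨htv, ht⟩) hwt
        rw [Function.update_comm hwv.symm] at t1
        exact ⟨y, Reach.trans ih (Reach.single t1)⟩
  obtain ⟨y, hy⟩ := key _ hpath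
  rw [Function.update_idem] at hy
  refine Reach.trans hy (Reach.single ⟨Reach.properOn hy hc, hd, v, hv, d v, ?_⟩)
  rw [Function.update_idem, Function.update_eq_self]

/-- Recolour all vertices of the independent set `Q` by `i`. -/
theorem reach_fill {U : Finset V} {K : Finset ℕ} {c : V → ℕ} (hc : ProperOn G U K c)
    {Q : Finset V} (hQU : Q ⊆ U) (hQ : ∀ a ∈ Q, ∀ b ∈ Q, ¬ G.Adj a b) {i : ℕ} (hi : i ∈ K)
    (hcl : ∀ u ∈ U, c u = i → u ∈ Q) :
    Reach G U K c (fun u => if u ∈ Q then i else c u) := by
  have key : ∀ S : Finset V, S ⊆ Q → Reach G U K c (fun u => if u ∈ S then i else c u) := by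
    intro S
    induction S using Finset.induction_on with
    | empty =>
      intro _
      simp only [Finset.notMem_empty, if_false]
      exact Reach.refl _
    | insert a S ha ih =>
      intro hS
      have hSQ : S ⊆ Q := fun x hx => hS (Finset.mem_insert_of_mem hx)
      have haQ : a ∈ Q := hS (Finset.mem_insert_self _ _)
      have h1 := ih hSQ
      have h2 := Reach.properOn h1 hc
      have h3 : Step G U K (fun u => if u ∈ S then i else c u)
          (Function.update (fun u => if u ∈ S then i else c u) a i) := by
        refine step_update h2 (hQU haQ) hi ?_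
        intro w hw haw
        have hwQ : w ∉ Q := fun h => hQ a haQ w h haw
        have hwS : w ∉ S := fun h => hwQ (hSQ h)
        simp only [hwS, if_false]
        intro h4
        exact hwQ (hcl w hw h4)
      have e : Function.update (fun u => if u ∈ S then i else c u) a i =
          fun u => if u ∈ insert a S then i else c u := by
        funext u
        by_cases hua : u = a
        · subst hua
          simp
        · rw [Function.update_of_ne hua]
          simp [hua]
      rw [← e]
      exact Reach.trans h1 (Reach.single h3)
  exact key Q (Finset.Subset.refl _)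

theorem ColOn.exists_coloring {U : Finset V} {m : ℕ} (h : ColOn G U m) {K : Finset ℕ}
    (hK : K.card = m) : ∃ g : V → ℕ, ProperOn G U K g := by
  obtain ⟨f, hf⟩ := h
  have hcard : (Finset.range m).card = K.card := by rw [Finset.card_range, hK]
  let e := Finset.equivOfCardEq hcard
  let φ : ℕ → ℕ := fun n => if h : n ∈ Finset.range m then (e ⟨n, h⟩ : ℕ) else 0
  refine ⟨fun u => φ (f u), ?_, ?_⟩
  · intro u hu
    have := hf.1 u hu
    simp only [φ, dif_pos this]
    exact (e ⟨f u, this⟩).2
  · intro u hu v hv huv h1
    have h2 := hf.1 u hu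
    have h3 := hf.1 v hv
    simp only [φ, dif_pos h2, dif_pos h3] at h1
    have h4 := e.injective (Subtype.ext h1)
    exact hf.2 u hu v hv huv (congrArg Subtype.val h4)

theorem ColOn.mono {U U' : Finset V} {m : ℕ} (h : ColOn G U' m) (hU : U ⊆ U') :
    ColOn G U m := by
  obtain ⟨f, hf⟩ := h
  exact ⟨f, hf.mono hU (Finset.Subset.refl _)⟩

section link

variable {U : Finset V} {K : Finset ℕ} {m : ℕ}

/-- `Q` is an independent set whose complement in `U` is `m`-colourable. -/
def Good (G : SimpleGraph V) (U : Finset V) (m : ℕ) (Q : Finset V) : Prop :=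
  Q ⊆ U ∧ (∀ a ∈ Q, ∀ b ∈ Q, ¬ G.Adj a b) ∧ ColOn G (U \ Q) m

/-- two colourings with the same exact class `Q` of colour `i` -/
theorem link_same (hK : K.card = m + 2)
    (hP : ∀ U' ⊆ U, ∀ K' : Finset ℕ, K'.card = m + 1 → ColOn G U' m → MixOn G U' K')
    {Q : Finset V} (hQ : Good G U m Q) {i : ℕ} (hi : i ∈ K) {c d : V → ℕ}
    (hc : ProperOn G U K c) (hd : ProperOn G U K d) (hcd : ∀ v, v ∉ U → c v = d v)
    (hci : ∀ u ∈ U, c u = i ↔ u ∈ Q) (hdi : ∀ u ∈ U, d u = i ↔ u ∈ Q) : Reach G U K c d := by
  have hcardK : (K.erase i).card = m + 1 := by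
    rw [Finset.card_erase_of_mem hi, hK]
    omega
  have hmix := hP (U \ Q) Finset.sdiff_subset (K.erase i) hcardK hQ.2.2
  have hrestr : ∀ e : V → ℕ, ProperOn G U K e → (∀ u ∈ U, e u = i ↔ u ∈ Q) →
      ProperOn G (U \ Q) (K.erase i) e := by
    intro e he hei
    refine ⟨?_, ?_⟩
    · intro u hu
      rw [Finset.mem_sdiff] at hu
      refine Finset.mem_erase.mpr ⟨?_, he.1 u hu.1⟩
      intro h
      exact hu.2 ((hei u hu.1).mp h)
    · intro u hu v hv
      exact he.2 u (Finset.mem_sdiff.mp hu).1 v (Finset.mem_sdiff.mp hv).1
  have h1 : Reach G (U \ Q) (K.erase i) c d := by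
    refine hmix c d (hrestr c hc hci) (hrestr d hd hdi) ?_
    intro v hv
    by_cases hvU : v ∈ U
    · have hvQ : v ∈ Q := by
        by_contra h
        exact hv (Finset.mem_sdiff.mpr ⟨hvU, h⟩)
      rw [(hci v hvU).mpr hvQ, (hdi v hvU).mpr hvQ]
    · exact hcd v hvU
  refine Reach.lift h1 Finset.sdiff_subset (Finset.erase_subset _ _) hc ?_
  intro w hw hwQ
  have hwQ' : w ∈ Q := by
    by_contra h
    exact hwQ (Finset.mem_sdiff.mpr ⟨hw, h⟩)
  rw [(hci w hw).mpr hwQ']
  exact Finset.notMem_erase _ _

/-- two colourings with exact good classes of different colours -/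
theorem link_ne (hK : K.card = m + 2)
    (hP : ∀ U' ⊆ U, ∀ K' : Finset ℕ, K'.card = m + 1 → ColOn G U' m → MixOn G U' K')
    {Q Q' : Finset V} (hQ : Good G U m Q) (hQ' : Good G U m Q') {i j : ℕ} (hi : i ∈ K)
    (hj : j ∈ K) (hij : i ≠ j) {c d : V → ℕ}
    (hc : ProperOn G U K c) (hd : ProperOn G U K d) (hcd : ∀ v, v ∉ U → c v = d v)
    (hci : ∀ u ∈ U, c u = i ↔ u ∈ Q) (hdj : ∀ u ∈ U, d u = j ↔ u ∈ Q') : Reach G U K c d := by
  have hcardK : ((K.erase i).erase j).card = m := by
    rw [Finset.card_erase_of_mem (Finset.mem_erase.mpr ⟨hij.symm, hj⟩),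
      Finset.card_erase_of_mem hi, hK]
    omega
  obtain ⟨g, hg⟩ := hQ'.2.2.exists_coloring hcardK
  have hgK : ∀ u ∈ U, u ∉ Q' → g u ≠ j ∧ g u ≠ i ∧ g u ∈ K := by
    intro u hu huQ
    have := hg.1 u (Finset.mem_sdiff.mpr ⟨hu, huQ⟩)
    rw [Finset.mem_erase, Finset.mem_erase] at this
    exact this
  -- the intermediate colouring
  let h : V → ℕ := fun u => if u ∈ U then (if u ∈ Q then i else if u ∈ Q' then j else g u)
    else c u
  have hh : ProperOn G U K h := by
    refine ⟨?_, ?_⟩
    · intro u hu
      simp only [h, if_pos hu]
      by_cases h1 : u ∈ Q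
      · rwa [if_pos h1]
      · rw [if_neg h1]
        by_cases h2 : u ∈ Q'
        · rwa [if_pos h2]
        · rw [if_neg h2]
          exact (hgK u hu h2).2.2
    · intro u hu v hv huv
      simp only [h, if_pos hu, if_pos hv]
      by_cases h1 : u ∈ Q
      · rw [if_pos h1]
        have h2 : v ∉ Q := fun h => hQ.2.1 u h1 v h huv
        rw [if_neg h2]
        by_cases h3 : v ∈ Q'
        · rwa [if_pos h3]
        · rw [if_neg h3]
          exact ((hgK v hv h3).2.1).symm
      · rw [if_neg h1]
        by_cases h2 : v ∈ Q
        · rw [if_pos h2]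
          by_cases h3 : u ∈ Q'
          · rw [if_pos h3]
            exact hij.symm
          · rw [if_neg h3]
            exact (hgK u hu h3).2.1
        · rw [if_neg h2]
          by_cases h3 : u ∈ Q'
          · have h4 : v ∉ Q' := fun h => hQ'.2.1 u h3 v h huv
            rw [if_pos h3, if_neg h4]
            exact ((hgK v hv h4).1).symm
          · rw [if_neg h3]
            by_cases h4 : v ∈ Q'
            · rw [if_pos h4]
              exact (hgK u hu h3).1
            · rw [if_neg h4]
              exact hg.2 u (Finset.mem_sdiff.mpr ⟨hu, h3⟩) v (Finset.mem_sdiff.mpr ⟨hv, h4⟩) huv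
  have hhi : ∀ u ∈ U, h u = i ↔ u ∈ Q := by
    intro u hu
    simp only [h, if_pos hu]
    by_cases h1 : u ∈ Q
    · simp [h1]
    · rw [if_neg h1]
      simp only [h1, iff_false]
      by_cases h2 : u ∈ Q'
      · rw [if_pos h2]
        exact hij.symm
      · rw [if_neg h2]
        exact (hgK u hu h2).2.1
  have hhout : ∀ v, v ∉ U → c v = h v := by
    intro v hv
    simp only [h, if_neg hv]
  have r1 : Reach G U K c h := link_same hK hP hQ hi hc hh hhout hci hhi
  -- recolour `Q ∩ Q'`
  have hclass : ∀ u ∈ U, h u = j → u ∈ Q' := by
    intro u hu h1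
    by_contra h2
    simp only [h, if_pos hu] at h1
    by_cases h3 : u ∈ Q
    · rw [if_pos h3] at h1
      exact hij h1
    · rw [if_neg h3, if_neg h2] at h1
      exact (hgK u hu h2).1 h1
  have r2 := reach_fill hh hQ'.1 hQ'.2.1 hj hclass
  have hh' := Reach.properOn r2 hh
  have r3 : Reach G U K (fun u => if u ∈ Q' then j else h u) d := by
    refine link_same hK hP hQ' hj hh' hd ?_ ?_ hdj
    · intro v hv
      have : v ∉ Q' := fun h => hv (hQ'.1 h)
      simp only [this, if_false]
      rw [← hhout v hv, hcd v hv]
    · intro u hu
      by_cases h1 : u ∈ Q'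
      · simp [h1]
      · simp only [h1, if_false, iff_false]
        intro h2
        exact h1 (hclass u hu h2)
  exact Reach.trans r1 (Reach.trans r2 r3)

/-- any two colourings with a class inside a good set are connected -/
theorem link (hK : K.card = m + 2)
    (hP : ∀ U' ⊆ U, ∀ K' : Finset ℕ, K'.card = m + 1 → ColOn G U' m → MixOn G U' K')
    {Q Q' : Finset V} (hQ : Good G U m Q) (hQ' : Good G U m Q') {i j : ℕ} (hi : i ∈ K)
    (hj : j ∈ K) {c d : V → ℕ}
    (hc : ProperOn G U K c) (hd : ProperOn G U K d) (hcd : ∀ v, v ∉ U → c v = d v)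
    (hci : ∀ u ∈ U, c u = i → u ∈ Q) (hdj : ∀ u ∈ U, d u = j → u ∈ Q') : Reach G U K c d := by
  have r1 := reach_fill hc hQ.1 hQ.2.1 hi hci
  have r2 := reach_fill hd hQ'.1 hQ'.2.1 hj hdj
  have hc' := Reach.properOn r1 hc
  have hd' := Reach.properOn r2 hd
  have exact1 : ∀ u ∈ U, (if u ∈ Q then i else c u) = i ↔ u ∈ Q := by
    intro u hu
    by_cases h1 : u ∈ Q
    · simp [h1]
    · simp only [h1, if_false, iff_false]
      intro h2
      exact h1 (hci u hu h2)
  have exact2 : ∀ u ∈ U, (if u ∈ Q' then j else d u) = j ↔ u ∈ Q' := by
    intro u hu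
    by_cases h1 : u ∈ Q'
    · simp [h1]
    · simp only [h1, if_false, iff_false]
      intro h2
      exact h1 (hdj u hu h2)
  have hout : ∀ v, v ∉ U → (fun u => if u ∈ Q then i else c u) v =
      (fun u => if u ∈ Q' then j else d u) v := by
    intro v hv
    have h1 : v ∉ Q := fun h => hv (hQ.1 h)
    have h2 : v ∉ Q' := fun h => hv (hQ'.1 h)
    simp only [h1, h2, if_false]
    exact hcd v hv
  have mid : Reach G U K (fun u => if u ∈ Q then i else c u)
      (fun u => if u ∈ Q' then j else d u) := by
    by_cases hij : i = j
    · -- go through a third colour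
      obtain ⟨l, hl⟩ : ∃ l, l ∈ K.erase i := by
        have : 0 < (K.erase i).card := by
          rw [Finset.card_erase_of_mem hi, hK]
          omega
        exact Finset.card_pos.mp this
      have hli : l ≠ i := (Finset.mem_erase.mp hl).1
      have hlK : l ∈ K := (Finset.mem_erase.mp hl).2
      -- a colouring with exact class `Q'` of colour `l`
      have hcardK : (K.erase l).card = m + 1 := by
        rw [Finset.card_erase_of_mem hlK, hK]
        omega
      obtain ⟨K₂, hK₂, hK₂c⟩ := Finset.exists_subset_card_eq (show m ≤ (K.erase l).card by omega)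
      obtain ⟨g, hg⟩ := hQ'.2.2.exists_coloring hK₂c
      let h : V → ℕ := fun u => if u ∈ U then (if u ∈ Q' then l else g u) else c u
      have hgl : ∀ u ∈ U, u ∉ Q' → g u ≠ l ∧ g u ∈ K := by
        intro u hu huQ
        have := hK₂ (hg.1 u (Finset.mem_sdiff.mpr ⟨hu, huQ⟩))
        rw [Finset.mem_erase] at this
        exact this
      have hh : ProperOn G U K h := by
        refine ⟨?_, ?_⟩
        · intro u hu
          simp only [h, if_pos hu]
          by_cases h2 : u ∈ Q'
          · rwa [if_pos h2]
          · rw [if_neg h2]
            exact (hgl u hu h2).2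
        · intro u hu v hv huv
          simp only [h, if_pos hu, if_pos hv]
          by_cases h3 : u ∈ Q'
          · have h4 : v ∉ Q' := fun h => hQ'.2.1 u h3 v h huv
            rw [if_pos h3, if_neg h4]
            exact ((hgl v hv h4).1).symm
          · rw [if_neg h3]
            by_cases h4 : v ∈ Q'
            · rw [if_pos h4]
              exact (hgl u hu h3).1
            · rw [if_neg h4]
              exact hg.2 u (Finset.mem_sdiff.mpr ⟨hu, h3⟩) v (Finset.mem_sdiff.mpr ⟨hv, h4⟩) huv
      have hhl : ∀ u ∈ U, h u = l ↔ u ∈ Q' := by
        intro u hu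
        simp only [h, if_pos hu]
        by_cases h1 : u ∈ Q'
        · simp [h1]
        · rw [if_neg h1]
          simp only [h1, iff_false]
          exact (hgl u hu h1).1
      have hhout : ∀ v, v ∉ U → (fun u => if u ∈ Q then i else c u) v = h v := by
        intro v hv
        have h1 : v ∉ Q := fun h => hv (hQ.1 h)
        simp only [h, if_neg hv, h1, if_false]
      have q1 : Reach G U K (fun u => if u ∈ Q then i else c u) h :=
        link_ne hK hP hQ hQ' hi hlK hli.symm hc' hh hhout exact1 hhl
      have q2 : Reach G U K h (fun u => if u ∈ Q' then j else d u) :=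
        link_ne hK hP hQ' hQ' hlK hj (hij ▸ hli) hh hd'
          (fun v hv => (hhout v hv).symm.trans (hout v hv)) hhl exact2
      exact Reach.trans q1 q2
    · exact link_ne hK hP hQ hQ' hi hj hij hc' hd' hout exact1 exact2
  exact Reach.trans r1 (Reach.trans mid r2.symm)

end link

end Pool.Agent.Helper76.Recol
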