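import Pool.Agent.Helper76.Recol.Basic

set_option autoImplicit false

namespace Pool.Agent.Helper76.Recol

theorem nbeq_false {a b : ℕ} : Nat.beq a b = false ↔ a ≠ b := by
  constructor
  · rintro h rfl
    rw [Nat.beq_refl] at h
    exact absurd h (by simp)
  · intro h
    rw [← Bool.not_eq_true]
    intro h'
    exact h (Nat.eq_of_beq_eq_true h')

/-- a small graph: the list of the rows of its adjacency matrix, as bit masks -/
abbrev Gr := List ℕ

def adjB (X : Gr) (i j : ℕ) : Bool := (X.getD i 0).testBit j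

/-- adjacency in the extension of `X` (with `n` vertices) by a vertex `n` with neighbours `S` -/
def adjExt (X : Gr) (n S i j : ℕ) : Bool :=
  if Nat.beq i n then (if Nat.beq j n then false else S.testBit j)
  else if Nat.beq j n then S.testBit i else adjB X i j

def checkMap (Y X : Gr) (n S : ℕ) (p : List ℕ) : Bool :=
  (List.range Y.length).all fun a => Nat.ble (p.getD a 0) n &&
    (List.range Y.length).all fun b =>
      (Nat.beq a b || !(Nat.beq (p.getD a 0) (p.getD b 0))) &&
      (adjB Y a b == adjExt X n S (p.getD a 0) (p.getD b 0))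

/-- adding `i` to the neighbourhood `S ⊆ [0,i)` creates a `K₄` or a `2K₂` -/
def badIn (X : Gr) (i S : ℕ) : Bool :=
  let r := X.getD i 0
  let out := (2 ^ i - 1) ^^^ S
  (List.range i).any fun a =>
    (S.testBit a && r.testBit a && !(Nat.beq ((X.getD a 0) &&& r &&& S) 0)) ||
    (out.testBit a && !(r.testBit a) &&
      !(Nat.beq ((X.getD a 0) &&& (out ^^^ (out &&& r))) 0))

/-- leaving `i` out of the neighbourhood `S ⊆ [0,i)` creates a `2K₂` -/
def badOut (X : Gr) (i S : ℕ) : Bool :=
  let r := X.getD i 0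
  let out := (2 ^ i - 1) ^^^ S
  (List.range i).any fun a =>
    out.testBit a && r.testBit a && !(Nat.beq (S &&& ((X.getD a 0) ||| r)) S)

def go (X : Gr) (leaf : ℕ → Bool) (fin fout : ℕ) : ℕ → ℕ → ℕ → Bool
  | 0, _, S => leaf S
  | m + 1, i, S =>
    (Nat.beq i fout || badIn X i S || go X leaf fin fout m (i + 1) (S ||| 2 ^ i)) &&
    (Nat.beq i fin || badOut X i S || go X leaf fin fout m (i + 1) S)

/-- no proper colouring by three colours extends the partial one -/
def noCol3 (X : Gr) : ℕ → ℕ → ℕ → ℕ → ℕ → Bool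
  | 0, _, _, _, _ => false
  | m + 1, i, A, B, C =>
    let r := X.getD i 0
    (!(Nat.beq (r &&& A) 0) || noCol3 X m (i + 1) (A ||| 2 ^ i) B C) &&
    (!(Nat.beq (r &&& B) 0) || noCol3 X m (i + 1) A (B ||| 2 ^ i) C) &&
    (!(Nat.beq (r &&& C) 0) || noCol3 X m (i + 1) A B (C ||| 2 ^ i))

structure Stp where
  X : Gr
  kind : ℕ
  x : ℕ
  y : ℕ
  refs : List (ℕ × ℕ × List ℕ)

def leafB (prev : List Gr) (X : Gr) (n : ℕ) (refs : List (ℕ × ℕ × List ℕ)) (S : ℕ) : Bool :=
  refs.any fun t => Nat.beq t.1 S && (match prev[t.2.1]? with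
    | some Y => checkMap Y X n S t.2.2
    | none => false)

def checkStep (D : ℕ) (nc : Bool) (prev : List Gr) (s : Stp) : Bool :=
  let n := s.X.length
  match s.kind with
  | 0 => Nat.blt s.x n && Nat.blt s.y n && !(Nat.beq s.x s.y) && !(adjB s.X s.x s.y) &&
      Nat.beq ((s.X.getD s.x 0) &&& (s.X.getD s.y 0)) (s.X.getD s.x 0) &&
      go s.X (leafB prev s.X n s.refs) s.x s.y n 0 0
  | 1 => Nat.blt s.x n && Nat.blt ((List.range n).filter fun i => adjB s.X s.x i).length D &&
      go s.X (leafB prev s.X n s.refs) s.x n n 0 0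
  | 2 => go s.X (leafB prev s.X n s.refs) n n n 0 0
  | _ => nc && noCol3 s.X n 0 0 0 0

def checkAll (D : ℕ) (nc : Bool) : List Stp → List Gr → Bool
  | [], _ => true
  | s :: rest, prev => checkStep D nc prev s && checkAll D nc rest (s.X :: prev)

section sound

variable {V : Type} [DecidableEq V] {G : SimpleGraph V} {U : Finset V}

/-- `X` is embedded in `G[U]` by `f` as an induced subgraph -/
def Emb (G : SimpleGraph V) (U : Finset V) (X : Gr) (f : ℕ → V) : Prop :=
  (∀ i < X.length, f i ∈ U) ∧ (∀ i < X.length, ∀ j < X.length, i ≠ j → f i ≠ f j) ∧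
  ∀ i < X.length, ∀ j < X.length, (G.Adj (f i) (f j) ↔ adjB X i j = true)

theorem exists_testBit {x : ℕ} (h : x ≠ 0) : ∃ k, x.testBit k = true := by
  by_contra hcon
  push Not at hcon
  apply h
  apply Nat.eq_of_testBit_eq
  intro i
  rw [Nat.zero_testBit]
  have := hcon i
  simpa using this

variable (h2 : ∀ a b c d : V, G.Adj a b → G.Adj c d → a ≠ c → a ≠ d → b ≠ c → b ≠ d →
        G.Adj a c ∨ G.Adj a d ∨ G.Adj b c ∨ G.Adj b d)
  (h4 : ∀ a b c d : V, G.Adj a b → G.Adj a c → G.Adj a d → G.Adj b c → G.Adj b d →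
        G.Adj c d → False)

/-- `S` is the set of `a < i` such that `w` is adjacent to `f a` -/
def IsNb (G : SimpleGraph V) (f : ℕ → V) (w : V) (i S : ℕ) : Prop :=
  ∀ a, S.testBit a = true ↔ a < i ∧ G.Adj w (f a)

theorem out_testBit {f : ℕ → V} {w : V} {i S : ℕ} (hS : IsNb G f w i S) (a : ℕ) :
    ((2 ^ i - 1) ^^^ S).testBit a = true ↔ a < i ∧ ¬ G.Adj w (f a) := by
  rw [Nat.testBit_xor, Nat.testBit_two_pow_sub_one]
  have h := hS a
  by_cases ha : a < i
  · by_cases hw : G.Adj w (f a)
    · have h1 : S.testBit a = true := h.mpr ⟨ha, hw⟩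
      simp [ha, hw, h1]
    · have h1 : S.testBit a = false := by
        rw [← Bool.not_eq_true]
        intro h5
        exact hw (h.mp h5).2
      simp [ha, hw, h1]
  · have h1 : S.testBit a = false := by
      rw [← Bool.not_eq_true]
      intro h5
      exact ha (h.mp h5).1
    simp [ha, h1]

include h2 h4 in
theorem badIn_false {X : Gr} {f : ℕ → V} (hf : Emb G U X f) {w : V}
    (hw : ∀ a < X.length, w ≠ f a) {i S : ℕ} (hi : i < X.length) (hS : IsNb G f w i S)
    (hadj : G.Adj w (f i)) : badIn X i S = false := by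
  rw [← Bool.not_eq_true]
  intro h
  unfold badIn at h
  simp only [List.any_eq_true, List.mem_range, Bool.or_eq_true, Bool.and_eq_true,
    Bool.not_eq_true', nbeq_false, ne_eq] at h
  obtain ⟨a, hai, h | h⟩ := h
  · obtain ⟨⟨h1, h5⟩, h3⟩ := h
    obtain ⟨b, hb⟩ := exists_testBit h3
    rw [Nat.testBit_and, Nat.testBit_and, Bool.and_eq_true, Bool.and_eq_true] at hb
    have ha' := (hS a).mp h1
    have hb' := (hS b).mp hb.2
    have hax : a < X.length := lt_trans hai hi
    have hbx : b < X.length := lt_trans hb'.1 hi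
    have e1 : G.Adj (f i) (f a) := (hf.2.2 i hi a hax).mpr h5
    have e2 : G.Adj (f a) (f b) := (hf.2.2 a hax b hbx).mpr hb.1.1
    have e3 : G.Adj (f i) (f b) := (hf.2.2 i hi b hbx).mpr hb.1.2
    exact h4 w (f i) (f a) (f b) hadj ha'.2 hb'.2 e1 e3 e2
  · obtain ⟨⟨h1, h5⟩, h3⟩ := h
    obtain ⟨b, hb⟩ := exists_testBit h3
    rw [Nat.testBit_and, Nat.testBit_xor, Nat.testBit_and, Bool.and_eq_true] at hb
    have ha' := (out_testBit hS a).mp h1
    have hob : ((2 ^ i - 1) ^^^ S).testBit b = true ∧ (X.getD i 0).testBit b = false := by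
      have h6 := hb.2
      revert h6
      generalize ((2 ^ i - 1) ^^^ S).testBit b = p
      generalize (X.getD i 0).testBit b = q
      cases p <;> cases q <;> simp
    have hb' := (out_testBit hS b).mp hob.1
    have hax : a < X.length := lt_trans hai hi
    have hbx : b < X.length := lt_trans hb'.1 hi
    have e1 : ¬ G.Adj (f i) (f a) := by
      rw [hf.2.2 i hi a hax]
      unfold adjB
      simp only [h5]
      simp
    have e3 : ¬ G.Adj (f i) (f b) := by
      rw [hf.2.2 i hi b hbx]
      unfold adjB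
      simp only [hob.2]
      simp
    have e2 : G.Adj (f a) (f b) := (hf.2.2 a hax b hbx).mpr hb.1
    rcases h2 w (f i) (f a) (f b) hadj e2 (hw a hax) (hw b hbx)
      (hf.2.1 i hi a hax (ne_of_gt hai)) (hf.2.1 i hi b hbx (ne_of_gt hb'.1)) with h | h | h | h
    · exact ha'.2 h
    · exact hb'.2 h
    · exact e1 h
    · exact e3 h

include h2 in
theorem badOut_false {X : Gr} {f : ℕ → V} (hf : Emb G U X f) {w : V}
    (hw : ∀ a < X.length, w ≠ f a) {i S : ℕ} (hi : i < X.length) (hS : IsNb G f w i S)
    (hadj : ¬ G.Adj w (f i)) : badOut X i S = false := by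
  rw [← Bool.not_eq_true]
  intro h
  unfold badOut at h
  simp only [List.any_eq_true, List.mem_range, Bool.and_eq_true,
    Bool.not_eq_true', nbeq_false, ne_eq] at h
  obtain ⟨a, hai, ⟨h1, h5⟩, h3⟩ := h
  have ha' := (out_testBit hS a).mp h1
  have hax : a < X.length := lt_trans hai hi
  obtain ⟨s, hs⟩ : ∃ s, S.testBit s = true ∧ (X.getD a 0 ||| X.getD i 0).testBit s = false := by
    by_contra hcon
    push Not at hcon
    apply h3
    apply Nat.eq_of_testBit_eq
    intro k
    rw [Nat.testBit_and]
    cases h7 : S.testBit k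
    · rw [Bool.false_and]
    · rw [Bool.true_and]
      exact (Bool.not_eq_false _).mp (hcon k h7)
  have hs' := (hS s).mp hs.1
  have hsx : s < X.length := lt_trans hs'.1 hi
  rw [Nat.testBit_or, Bool.or_eq_false_iff] at hs
  have e1 : G.Adj (f i) (f a) := (hf.2.2 i hi a hax).mpr h5
  have e2 : ¬ G.Adj (f a) (f s) := by
    rw [hf.2.2 a hax s hsx]
    unfold adjB
    simp only [hs.2.1]
    simp
  have e3 : ¬ G.Adj (f i) (f s) := by
    rw [hf.2.2 i hi s hsx]
    unfold adjB
    simp only [hs.2.2]
    simp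
  have hsa : f s ≠ f a := by
    intro h
    rw [h] at hs'
    exact ha'.2 hs'.2
  rcases h2 w (f s) (f i) (f a) hs'.2 e1 (hw i hi) (hw a hax)
    (hf.2.1 s hsx i hi (ne_of_lt hs'.1)) hsa with h | h | h | h
  · exact hadj h
  · exact ha'.2 h
  · exact e3 h.symm
  · exact e2 h.symm

include h2 h4 in
theorem go_sound {X : Gr} {f : ℕ → V} (hf : Emb G U X f) {w : V}
    (hw : ∀ a < X.length, w ≠ f a) (leaf : ℕ → Bool) (fin fout : ℕ)
    (hfin : fin < X.length → G.Adj w (f fin)) (hfout : fout < X.length → ¬ G.Adj w (f fout)) :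
    ∀ m i S : ℕ, m + i = X.length → IsNb G f w i S → go X leaf fin fout m i S = true →
      ∃ S', IsNb G f w X.length S' ∧ leaf S' = true := by
  intro m
  induction m with
  | zero =>
    intro i S hmi hS h
    have : i = X.length := by omega
    subst this
    exact ⟨S, hS, h⟩
  | succ m ih =>
    intro i S hmi hS h
    have hi : i < X.length := by omega
    unfold go at h
    rw [Bool.and_eq_true, Bool.or_eq_true, Bool.or_eq_true, Bool.or_eq_true, Bool.or_eq_true] at h
    by_cases hadj : G.Adj w (f i)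
    · rcases h.1 with (h5 | h5) | h5
      · exfalso
        have : i = fout := Nat.eq_of_beq_eq_true h5
        subst this
        exact hfout hi hadj
      · exfalso
        rw [badIn_false h2 h4 hf hw hi hS hadj] at h5
        exact Bool.false_ne_true h5
      · refine ih (i + 1) (S ||| 2 ^ i) (by omega) ?_ h5
        intro a
        rw [Nat.testBit_or, Nat.testBit_two_pow, Bool.or_eq_true, hS a, decide_eq_true_eq]
        constructor
        · rintro (⟨h6, h7⟩ | rfl)
          · exact ⟨by omega, h7⟩
          · exact ⟨by omega, hadj⟩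
        · rintro ⟨h6, h7⟩
          by_cases h8 : a < i
          · exact Or.inl ⟨h8, h7⟩
          · right
            omega
    · rcases h.2 with (h5 | h5) | h5
      · exfalso
        have : i = fin := Nat.eq_of_beq_eq_true h5
        subst this
        exact hadj (hfin hi)
      · exfalso
        rw [badOut_false h2 hf hw hi hS hadj] at h5
        exact Bool.false_ne_true h5
      · refine ih (i + 1) S (by omega) ?_ h5
        intro a
        rw [hS a]
        constructor
        · rintro ⟨h6, h7⟩
          exact ⟨by omega, h7⟩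
        · rintro ⟨h6, h7⟩
          refine ⟨?_, h7⟩
          by_contra h8
          have : a = i := by omega
          subst this
          exact hadj h7

theorem checkMap_sound {Y X : Gr} {f : ℕ → V} (hf : Emb G U X f) {w : V} (hwU : w ∈ U)
    (hw : ∀ a < X.length, w ≠ f a) {S : ℕ} (hS : IsNb G f w X.length S) {p : List ℕ}
    (h : checkMap Y X X.length S p = true) :
    Emb G U Y (fun a => if p.getD a 0 = X.length then w else f (p.getD a 0)) := by
  unfold checkMap at h
  simp only [List.all_eq_true, List.mem_range, Bool.and_eq_true, Bool.or_eq_true,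
    Bool.not_eq_true', nbeq_false, ne_eq, beq_iff_eq] at h
  refine ⟨?_, ?_, ?_⟩
  · intro i hi
    have h1 := Nat.le_of_ble_eq_true (h i hi).1
    by_cases h3 : p.getD i 0 = X.length
    · simp only [h3, if_true]
      exact hwU
    · simp only [h3, if_false]
      exact hf.1 _ (lt_of_le_of_ne h1 h3)
  · intro i hi j hj hij
    have h1 := Nat.le_of_ble_eq_true (h i hi).1
    have h3 := Nat.le_of_ble_eq_true (h j hj).1
    have h5 := ((h i hi).2 j hj).1
    have h6 : p.getD i 0 ≠ p.getD j 0 := by
      rcases h5 with h5 | h5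
      · exact absurd (Nat.eq_of_beq_eq_true h5) hij
      · exact h5
    by_cases h7 : p.getD i 0 = X.length
    · have h8 : p.getD j 0 ≠ X.length := fun h => h6 (h7.trans h.symm)
      simp only [h7, if_true, h8, if_false]
      exact hw _ (lt_of_le_of_ne h3 h8)
    · by_cases h8 : p.getD j 0 = X.length
      · simp only [h7, if_false, h8, if_true]
        exact (hw _ (lt_of_le_of_ne h1 h7)).symm
      · simp only [h7, if_false, h8]
        exact hf.2.1 _ (lt_of_le_of_ne h1 h7) _ (lt_of_le_of_ne h3 h8) h6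
  · intro i hi j hj
    have h1 := Nat.le_of_ble_eq_true (h i hi).1
    have h3 := Nat.le_of_ble_eq_true (h j hj).1
    have h5 := ((h i hi).2 j hj).2
    rw [h5]
    unfold adjExt
    by_cases h7 : p.getD i 0 = X.length
    · have h7' : Nat.beq (p.getD i 0) X.length = true := by rw [h7]; exact Nat.beq_refl _
      rw [if_pos h7']
      by_cases h8 : p.getD j 0 = X.length
      · have h8' : Nat.beq (p.getD j 0) X.length = true := by rw [h8]; exact Nat.beq_refl _
        rw [if_pos h8']
        simp only [h7, h8, if_true]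
        simp
      · have h8' : ¬ Nat.beq (p.getD j 0) X.length = true :=
          fun h => h8 (Nat.eq_of_beq_eq_true h)
        rw [if_neg h8']
        simp only [h7, h8, if_true, if_false]
        rw [hS]
        constructor
        · intro h
          exact ⟨lt_of_le_of_ne h3 h8, h⟩
        · intro h
          exact h.2
    · have h7' : ¬ Nat.beq (p.getD i 0) X.length = true :=
        fun h => h7 (Nat.eq_of_beq_eq_true h)
      rw [if_neg h7']
      by_cases h8 : p.getD j 0 = X.length
      · have h8' : Nat.beq (p.getD j 0) X.length = true := by rw [h8]; exact Nat.beq_refl _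
        rw [if_pos h8']
        simp only [h7, h8, if_true, if_false]
        rw [hS]
        constructor
        · intro h
          exact ⟨lt_of_le_of_ne h1 h7, h.symm⟩
        · intro h
          exact h.2.symm
      · have h8' : ¬ Nat.beq (p.getD j 0) X.length = true :=
          fun h => h8 (Nat.eq_of_beq_eq_true h)
        rw [if_neg h8']
        simp only [h7, h8, if_false]
        exact hf.2.2 _ (lt_of_le_of_ne h1 h7) _ (lt_of_le_of_ne h3 h8)

theorem leafB_sound {prev : List Gr} {C : Prop}
    (hprev : ∀ Y ∈ prev, ∀ g : ℕ → V, Emb G U Y g → C)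
    {X : Gr} {f : ℕ → V} (hf : Emb G U X f) {w : V} (hwU : w ∈ U)
    (hw : ∀ a < X.length, w ≠ f a) {S : ℕ} (hS : IsNb G f w X.length S)
    {refs : List (ℕ × ℕ × List ℕ)} (h : leafB prev X X.length refs S = true) : C := by
  unfold leafB at h
  rw [List.any_eq_true] at h
  obtain ⟨t, _, h⟩ := h
  rw [Bool.and_eq_true] at h
  obtain ⟨_, h⟩ := h
  split at h
  · rename_i Y hY
    exact hprev Y (List.mem_of_getElem? hY) _ (checkMap_sound hf hwU hw hS h)
  · exact absurd h (by simp)

include h2 h4 in
theorem go_leaf_sound {prev : List Gr} {C : Prop}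
    (hprev : ∀ Y ∈ prev, ∀ g : ℕ → V, Emb G U Y g → C)
    {X : Gr} {f : ℕ → V} (hf : Emb G U X f) {w : V} (hwU : w ∈ U)
    (hw : ∀ a < X.length, w ≠ f a) {fin fout : ℕ}
    (hfin : fin < X.length → G.Adj w (f fin)) (hfout : fout < X.length → ¬ G.Adj w (f fout))
    {refs : List (ℕ × ℕ × List ℕ)}
    (h : go X (leafB prev X X.length refs) fin fout X.length 0 0 = true) : C := by
  obtain ⟨S, hS, hleaf⟩ := go_sound h2 h4 hf hw _ fin fout hfin hfout X.length 0 0 (by omega)
    (by
      intro a
      rw [Nat.zero_testBit]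
      simp) h
  exact leafB_sound hprev hf hwU hw hS hleaf

/-- no 3-colouring -/
theorem noCol3_sound {X : Gr} {f : ℕ → V} (hf : Emb G U X f) {c : V → ℕ}
    (hc : ProperOn G U (Finset.range 3) c) :
    ∀ m i A B C : ℕ, m + i = X.length →
      (∀ a, A.testBit a = true ↔ a < i ∧ c (f a) = 0) →
      (∀ a, B.testBit a = true ↔ a < i ∧ c (f a) = 1) →
      (∀ a, C.testBit a = true ↔ a < i ∧ c (f a) = 2) →
      noCol3 X m i A B C = true → False := by
  intro m
  induction m with
  | zero =>
    intro i A B C _ _ _ _ h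
    exact Bool.false_ne_true h
  | succ m ih =>
    intro i A B C hmi hA hB hC h
    have hi : i < X.length := by omega
    unfold noCol3 at h
    simp only [Bool.and_eq_true, Bool.or_eq_true, Bool.not_eq_true', nbeq_false,
      ne_eq] at h
    -- a colour class meeting the row of `i`
    have hmeet : ∀ (T k : ℕ), (∀ a, T.testBit a = true ↔ a < i ∧ c (f a) = k) →
        ¬ (X.getD i 0 &&& T = 0) → c (f i) ≠ k := by
      intro T k hT hne hk
      obtain ⟨a, ha⟩ := exists_testBit hne
      rw [Nat.testBit_and, Bool.and_eq_true] at ha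
      have h5 := (hT a).mp ha.2
      have hax : a < X.length := lt_trans h5.1 hi
      have e1 : G.Adj (f i) (f a) := (hf.2.2 i hi a hax).mpr ha.1
      exact hc.2 _ (hf.1 i hi) _ (hf.1 a hax) e1 (hk.trans h5.2.symm)
    have hkeep : ∀ (T k : ℕ), (∀ a, T.testBit a = true ↔ a < i ∧ c (f a) = k) → c (f i) ≠ k →
        (∀ a, T.testBit a = true ↔ a < i + 1 ∧ c (f a) = k) := by
      intro T k hT hne a
      rw [hT a]
      constructor
      · rintro ⟨h6, h7⟩
        exact ⟨by omega, h7⟩
      · rintro ⟨h6, h7⟩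
        refine ⟨?_, h7⟩
        by_contra h8
        have : a = i := by omega
        subst this
        exact hne h7
    have hadd : ∀ (T k : ℕ), (∀ a, T.testBit a = true ↔ a < i ∧ c (f a) = k) → c (f i) = k →
        (∀ a, (T ||| 2 ^ i).testBit a = true ↔ a < i + 1 ∧ c (f a) = k) := by
      intro T k hT hk a
      rw [Nat.testBit_or, Nat.testBit_two_pow, Bool.or_eq_true, hT a, decide_eq_true_eq]
      constructor
      · rintro (⟨h6, h7⟩ | rfl)
        · exact ⟨by omega, h7⟩
        · exact ⟨by omega, hk⟩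
      · rintro ⟨h6, h7⟩
        by_cases h8 : a < i
        · exact Or.inl ⟨h8, h7⟩
        · right
          omega
    have hr := hc.1 _ (hf.1 i hi)
    rw [Finset.mem_range] at hr
    obtain ⟨⟨q1, q2⟩, q3⟩ := h
    have h012 : c (f i) = 0 ∨ c (f i) = 1 ∨ c (f i) = 2 := by omega
    rcases h012 with h0 | h1 | h5
    · rcases q1 with q1 | q1
      · exact hmeet A 0 hA q1 h0
      · exact ih (i + 1) _ _ _ (by omega) (hadd A 0 hA h0) (hkeep B 1 hB (by omega))
          (hkeep C 2 hC (by omega)) q1
    · rcases q2 with q2 | q2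
      · exact hmeet B 1 hB q2 h1
      · exact ih (i + 1) _ _ _ (by omega) (hkeep A 0 hA (by omega)) (hadd B 1 hB h1)
          (hkeep C 2 hC (by omega)) q2
    · rcases q3 with q3 | q3
      · exact hmeet C 2 hC q3 h5
      · exact ih (i + 1) _ _ _ (by omega) (hkeep A 0 hA (by omega)) (hkeep B 1 hB (by omega))
          (hadd C 2 hC h5) q3

variable {D : ℕ}
  (hirr : ∀ u ∈ U, ∀ v ∈ U, u ≠ v → ¬ G.Adj u v → ∃ w ∈ U, G.Adj u w ∧ ¬ G.Adj v w)
  (hdeg : ∀ v ∈ U, ∀ N : Finset V, (∀ w ∈ U, G.Adj v w → w ∈ N) → D ≤ N.card)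

include h2 h4 hirr hdeg in
theorem checkStep_sound {nc : Bool} (hnc : nc = true → ColOn G U 3) {prev : List Gr} {C : Prop}
    (hprev : ∀ Y ∈ prev, ∀ g : ℕ → V, Emb G U Y g → C) {s : Stp}
    (hfinal : s.kind = 2 → ∀ f : ℕ → V, Emb G U s.X f →
      (∀ w ∈ U, ∃ i < s.X.length, f i = w) → C)
    (h : checkStep D nc prev s = true) : ∀ g : ℕ → V, Emb G U s.X g → C := by
  intro f hf
  unfold checkStep at h
  simp only at h
  split at h
  · -- comparable pair
    simp only [Bool.and_eq_true, Bool.not_eq_true', nbeq_false, ne_eq] at h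
    obtain ⟨⟨⟨⟨⟨hx, hy⟩, hxy⟩, hna⟩, hsub⟩, hgo⟩ := h
    have hx' : s.x < s.X.length := by simpa [Nat.blt_eq] using hx
    have hy' : s.y < s.X.length := by simpa [Nat.blt_eq] using hy
    have hsub' := Nat.eq_of_beq_eq_true hsub
    have hnadj : ¬ G.Adj (f s.x) (f s.y) := by
      rw [hf.2.2 _ hx' _ hy', hna]
      simp
    obtain ⟨w, hwU, hw1, hw2⟩ := hirr _ (hf.1 _ hx') _ (hf.1 _ hy') (hf.2.1 _ hx' _ hy' hxy) hnadj
    have hw : ∀ a < s.X.length, w ≠ f a := by
      rintro a ha rfl
      rw [hf.2.2 _ hx' _ ha] at hw1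
      apply hw2
      rw [hf.2.2 _ hy' _ ha]
      unfold adjB at hw1 ⊢
      rw [← hsub', Nat.testBit_and, Bool.and_eq_true] at hw1
      exact hw1.2
    exact go_leaf_sound h2 h4 hprev hf hwU hw (fun _ => hw1.symm) (fun _ h => hw2 h.symm) hgo
  · -- degree
    simp only [Bool.and_eq_true] at h
    obtain ⟨⟨hx, hcount⟩, hgo⟩ := h
    have hx' : s.x < s.X.length := by simpa [Nat.blt_eq] using hx
    have hcount' : ((List.range s.X.length).filter fun i => adjB s.X s.x i).length < D := by
      simpa [Nat.blt_eq] using hcount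
    obtain ⟨w, hwU, hw1, hwN⟩ : ∃ w ∈ U, G.Adj (f s.x) w ∧
        w ∉ (((List.range s.X.length).filter fun i => adjB s.X s.x i).map f).toFinset := by
      by_contra hcon
      push Not at hcon
      have h5 := hdeg _ (hf.1 _ hx') _ hcon
      have h6 := List.toFinset_card_le
        (((List.range s.X.length).filter fun i => adjB s.X s.x i).map f)
      rw [List.length_map] at h6
      omega
    have hw : ∀ a < s.X.length, w ≠ f a := by
      rintro a ha rfl
      apply hwN
      rw [List.mem_toFinset, List.mem_map]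
      refine ⟨a, ?_, rfl⟩
      rw [List.mem_filter, List.mem_range]
      exact ⟨ha, (hf.2.2 _ hx' _ ha).mp hw1⟩
    exact go_leaf_sound h2 h4 hprev hf hwU hw (fun _ => hw1.symm) (fun h => absurd h (lt_irrefl _))
      hgo
  · -- final
    rename_i hkind
    by_cases hall : ∀ w ∈ U, ∃ i < s.X.length, f i = w
    · exact hfinal hkind f hf hall
    · push Not at hall
      obtain ⟨w, hwU, hw⟩ := hall
      exact go_leaf_sound h2 h4 hprev hf hwU (fun a ha => (hw a ha).symm)
        (fun h => absurd h (lt_irrefl _)) (fun h => absurd h (lt_irrefl _)) h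
  · -- not 3-colourable
    rw [Bool.and_eq_true] at h
    exfalso
    obtain ⟨c, hc⟩ := hnc h.1
    refine noCol3_sound hf hc s.X.length 0 0 0 0 (by omega) ?_ ?_ ?_ h.2 <;>
      · intro a
        rw [Nat.zero_testBit]
        simp

include h2 h4 hirr hdeg in
theorem checkAll_sound {nc : Bool} (hnc : nc = true → ColOn G U 3) {C : Prop} :
    ∀ (steps : List Stp) (prev : List Gr),
    (∀ Y ∈ prev, ∀ g : ℕ → V, Emb G U Y g → C) →
    (∀ s ∈ steps, s.kind = 2 → ∀ f : ℕ → V, Emb G U s.X f →
      (∀ w ∈ U, ∃ i < s.X.length, f i = w) → C) →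
    checkAll D nc steps prev = true →
    ∀ s ∈ steps, ∀ g : ℕ → V, Emb G U s.X g → C := by
  intro steps
  induction steps with
  | nil =>
    intro prev _ _ _ s hs
    simp at hs
  | cons t rest ih =>
    intro prev hprev hfinal h s hs
    unfold checkAll at h
    rw [Bool.and_eq_true] at h
    have ht : ∀ g : ℕ → V, Emb G U t.X g → C :=
      checkStep_sound h2 h4 hirr hdeg hnc hprev (hfinal t (List.mem_cons_self ..)) h.1
    rcases List.mem_cons.mp hs with rfl | hs
    · exact ht
    · refine ih (t.X :: prev) ?_ (fun s hs => hfinal s (List.mem_cons_of_mem _ hs)) h.2 s hs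
      intro Y hY
      rcases List.mem_cons.mp hY with rfl | hY
      · exact ht
      · exact hprev Y hY

end sound

end Pool.Agent.Helper76.Recol
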