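import Pool.Agent.Helper76.Recol.Checker

set_option autoImplicit false

namespace Pool.Agent.Helper76.Recol

/-- enumerate the independent sets -/
def goInd (X : Gr) (leaf : ℕ → Bool) : ℕ → ℕ → ℕ → Bool
  | 0, _, S => leaf S
  | m + 1, i, S =>
    (!(Nat.beq ((X.getD i 0) &&& S) 0) || goInd X leaf m (i + 1) (S ||| 2 ^ i)) &&
    goInd X leaf m (i + 1) S

/-- the mask `A` is independent in `X` -/
def indepB (X : Gr) (A : ℕ) : Bool :=
  (List.range X.length).all fun i => !(A.testBit i) || Nat.beq ((X.getD i 0) &&& A) 0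

/-- `Q` is independent and the rest is covered by `m` independent sets -/
def certOK (X : Gr) (m : ℕ) (t : ℕ × List ℕ) : Bool :=
  indepB X t.1 && Nat.beq t.2.length m && t.2.all (indepB X) &&
  (List.range X.length).all fun i => t.1.testBit i || t.2.any fun A => A.testBit i

def leafF (T : List ℕ) (t : ℕ) (certs : List (ℕ × List ℕ)) (S : ℕ) : Bool :=
  Nat.blt ((T.filter fun i => S.testBit i).length) t ||
    certs.any fun q => Nat.beq (S &&& q.1) S

def checkFinal (X : Gr) (m : ℕ) (T : List ℕ) (t : ℕ) (certs : List (ℕ × List ℕ)) : Bool :=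
  Nat.blt ((m + 2) * (t - 1)) T.length && decide T.Nodup && Nat.ble 1 t &&
  (T.all fun i => Nat.blt i X.length) && certs.all (certOK X m) &&
  goInd X (leafF T t certs) X.length 0 0

section

variable {V : Type} [DecidableEq V] {G : SimpleGraph V} {U : Finset V}

theorem goInd_sound {X : Gr} {f : ℕ → V} (hf : Emb G U X f) (P : ℕ → Prop)
    (hP : ∀ a < X.length, ∀ b < X.length, P a → P b → ¬ G.Adj (f a) (f b)) (leaf : ℕ → Bool) :
    ∀ m i S : ℕ, m + i = X.length → (∀ a, S.testBit a = true ↔ a < i ∧ P a) →
      goInd X leaf m i S = true →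
      ∃ S', (∀ a, S'.testBit a = true ↔ a < X.length ∧ P a) ∧ leaf S' = true := by
  intro m
  induction m with
  | zero =>
    intro i S hmi hS h
    have : i = X.length := by omega
    subst this
    exact ⟨S, hS, h⟩
  | succ m ih =>
    intro i S hmi hS h
    have hi : i < X.length := by omega
    unfold goInd at h
    rw [Bool.and_eq_true, Bool.or_eq_true, Bool.not_eq_true', nbeq_false] at h
    by_cases hPi : P i
    · rcases h.1 with h5 | h5
      · exfalso
        obtain ⟨b, hb⟩ := exists_testBit h5
        rw [Nat.testBit_and, Bool.and_eq_true] at hb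
        have hb' := (hS b).mp hb.2
        have hbx : b < X.length := lt_trans hb'.1 hi
        exact hP i hi b hbx hPi hb'.2 ((hf.2.2 i hi b hbx).mpr hb.1)
      · refine ih (i + 1) (S ||| 2 ^ i) (by omega) ?_ h5
        intro a
        rw [Nat.testBit_or, Nat.testBit_two_pow, Bool.or_eq_true, hS a, decide_eq_true_eq]
        constructor
        · rintro (⟨h6, h7⟩ | rfl)
          · exact ⟨by omega, h7⟩
          · exact ⟨by omega, hPi⟩
        · rintro ⟨h6, h7⟩
          by_cases h8 : a < i
          · exact Or.inl ⟨h8, h7⟩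
          · right
            omega
    · refine ih (i + 1) S (by omega) ?_ h.2
      intro a
      rw [hS a]
      constructor
      · rintro ⟨h6, h7⟩
        exact ⟨by omega, h7⟩
      · rintro ⟨h6, h7⟩
        refine ⟨?_, h7⟩
        by_contra h8
        have : a = i := by omega
        subst this
        exact hPi h7

theorem indepB_sound {X : Gr} {f : ℕ → V} (hf : Emb G U X f) {A : ℕ}
    (h : indepB X A = true) {i j : ℕ} (hi : i < X.length) (hj : j < X.length)
    (hiA : A.testBit i = true) (hjA : A.testBit j = true) : ¬ G.Adj (f i) (f j) := by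
  unfold indepB at h
  rw [List.all_eq_true] at h
  have h1 := h i (List.mem_range.mpr hi)
  rw [Bool.or_eq_true, hiA] at h1
  simp only [Bool.not_true, Bool.false_eq_true, false_or] at h1
  have h3 := Nat.eq_of_beq_eq_true h1
  intro hadj
  have h5 := (hf.2.2 i hi j hj).mp hadj
  unfold adjB at h5
  have h6 : ((X.getD i 0) &&& A).testBit j = true := by
    rw [Nat.testBit_and, h5, hjA]
    rfl
  rw [h3, Nat.zero_testBit] at h6
  exact Bool.false_ne_true h6

/-- the image of a mask -/
def maskSet (f : ℕ → V) (n Q : ℕ) : Finset V :=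
  ((Finset.range n).filter fun i => Q.testBit i = true).image f

theorem mem_maskSet {f : ℕ → V} {n Q : ℕ} {w : V} :
    w ∈ maskSet f n Q ↔ ∃ i < n, Q.testBit i = true ∧ f i = w := by
  unfold maskSet
  simp only [Finset.mem_image, Finset.mem_filter, Finset.mem_range]
  constructor
  · rintro ⟨i, ⟨h1, h2⟩, h3⟩
    exact ⟨i, h1, h2, h3⟩
  · rintro ⟨i, h1, h2, h3⟩
    exact ⟨i, ⟨h1, h2⟩, h3⟩

theorem certOK_sound {X : Gr} {f : ℕ → V} (hf : Emb G U X f)
    (hcov : ∀ w ∈ U, ∃ i < X.length, f i = w) {m : ℕ} {q : ℕ × List ℕ}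
    (h : certOK X m q = true) : Good G U m (maskSet f X.length q.1) := by
  unfold certOK at h
  simp only [Bool.and_eq_true, List.all_eq_true, List.mem_range, Bool.or_eq_true,
    List.any_eq_true] at h
  obtain ⟨⟨⟨hQ, hlen⟩, hA⟩, hcover⟩ := h
  have hlen' := Nat.eq_of_beq_eq_true hlen
  refine ⟨?_, ?_, ?_⟩
  · intro w hw
    obtain ⟨i, hi, _, rfl⟩ := mem_maskSet.mp hw
    exact hf.1 i hi
  · intro a ha b hb
    obtain ⟨i, hi, hiQ, rfl⟩ := mem_maskSet.mp ha
    obtain ⟨j, hj, hjQ, rfl⟩ := mem_maskSet.mp hb
    exact indepB_sound hf hQ hi hj hiQ hjQ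
  · classical
    -- the index of a vertex
    let idx : V → ℕ := fun w => if h : ∃ i < X.length, f i = w then h.choose else 0
    have hidx : ∀ w ∈ U, idx w < X.length ∧ f (idx w) = w := by
      intro w hw
      have h := hcov w hw
      simp only [idx, dif_pos h]
      exact h.choose_spec
    refine ⟨fun w => q.2.findIdx fun A => A.testBit (idx w), ?_, ?_⟩
    · intro w hw
      rw [Finset.mem_sdiff] at hw
      obtain ⟨h1, h3⟩ := hidx w hw.1
      rw [Finset.mem_range, ← hlen', List.findIdx_lt_length]
      rcases hcover _ h1 with h5 | h5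
      · exact absurd (mem_maskSet.mpr ⟨_, h1, h5, h3⟩) hw.2
      · exact h5
    · intro w hw z hz hwz heq
      rw [Finset.mem_sdiff] at hw hz
      obtain ⟨h1, h3⟩ := hidx w hw.1
      obtain ⟨h1', h3'⟩ := hidx z hz.1
      have hw5 : ∃ A ∈ q.2, A.testBit (idx w) = true := by
        rcases hcover _ h1 with h5 | h5
        · exact absurd (mem_maskSet.mpr ⟨_, h1, h5, h3⟩) hw.2
        · exact h5
      have hz5 : ∃ A ∈ q.2, A.testBit (idx z) = true := by
        rcases hcover _ h1' with h5 | h5
        · exact absurd (mem_maskSet.mpr ⟨_, h1', h5, h3'⟩) hz.2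
        · exact h5
      have hlw : (q.2.findIdx fun A => A.testBit (idx w)) < q.2.length := by
        rw [List.findIdx_lt_length]
        exact hw5
      have hlz : (q.2.findIdx fun A => A.testBit (idx z)) < q.2.length := by
        rw [List.findIdx_lt_length]
        exact hz5
      have g1 : (q.2[q.2.findIdx fun A => A.testBit (idx w)]'hlw).testBit (idx w) = true :=
        List.findIdx_getElem (w := hlw)
      have g2 : (q.2[q.2.findIdx fun A => A.testBit (idx z)]'hlz).testBit (idx z) = true :=
        List.findIdx_getElem (w := hlz)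
      have g3 : (q.2[q.2.findIdx fun A => A.testBit (idx w)]'hlw).testBit (idx z) = true := by
        have : (q.2[q.2.findIdx fun A => A.testBit (idx w)]'hlw) =
            (q.2[q.2.findIdx fun A => A.testBit (idx z)]'hlz) := by
          congr 1
        rw [this]
        exact g2
      have hmem := List.getElem_mem hlw
      have := indepB_sound hf (hA _ hmem) h1 h1' g1 g3
      rw [h3, h3'] at this
      exact this hwz

theorem final_mix {X : Gr} {f : ℕ → V} (hf : Emb G U X f)
    (hcov : ∀ w ∈ U, ∃ i < X.length, f i = w) {m : ℕ} {K : Finset ℕ} (hK : K.card = m + 2)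
    (hP : ∀ U' ⊆ U, ∀ K' : Finset ℕ, K'.card = m + 1 → ColOn G U' m → MixOn G U' K')
    {T : List ℕ} {t : ℕ} {certs : List (ℕ × List ℕ)}
    (h : checkFinal X m T t certs = true) : MixOn G U K := by
  unfold checkFinal at h
  simp only [Bool.and_eq_true, decide_eq_true_eq] at h
  obtain ⟨⟨⟨⟨⟨hcard, hnd⟩, ht⟩, hT⟩, hcerts⟩, hgo⟩ := h
  have hcard' : (m + 2) * (t - 1) < T.length := by simpa [Nat.blt_eq] using hcard
  have ht' := Nat.le_of_ble_eq_true ht
  have hT' : ∀ i ∈ T, i < X.length := by
    intro i hi
    have := (List.all_eq_true.mp hT) i hi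
    simpa [Nat.blt_eq] using this
  have hcerts' := List.all_eq_true.mp hcerts
  -- every colouring has a class inside a good set
  have key : ∀ c : V → ℕ, ProperOn G U K c → ∃ x ∈ K, ∃ Q, Good G U m Q ∧
      ∀ u ∈ U, c u = x → u ∈ Q := by
    intro c hc
    have hmaps : ∀ i ∈ T.toFinset, c (f i) ∈ K := by
      intro i hi
      exact hc.1 _ (hf.1 i (hT' i (List.mem_toFinset.mp hi)))
    obtain ⟨x, hxK, hx⟩ := Finset.exists_lt_card_fiber_of_mul_lt_card_of_maps_to hmaps
      (n := t - 1) (by rw [hK, List.toFinset_card_of_nodup hnd]; exact hcard')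
    obtain ⟨S, hS, hleaf⟩ := goInd_sound hf (fun a => c (f a) = x)
      (by
        intro a ha b hb h1 h3 hadj
        exact hc.2 _ (hf.1 a ha) _ (hf.1 b hb) hadj (h1.trans h3.symm))
      (leafF T t certs) X.length 0 0 (by omega)
      (by
        intro a
        rw [Nat.zero_testBit]
        simp) hgo
    unfold leafF at hleaf
    rw [Bool.or_eq_true] at hleaf
    rcases hleaf with hleaf | hleaf
    · exfalso
      have h1 : (T.filter fun i => S.testBit i).length < t := by
        simpa [Nat.blt_eq] using hleaf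
      have h3 : (Finset.filter (fun i => c (f i) = x) T.toFinset).card ≤
          (T.filter fun i => S.testBit i).length := by
        have : Finset.filter (fun i => c (f i) = x) T.toFinset ⊆
            (T.filter fun i => S.testBit i).toFinset := by
          intro i hi
          rw [Finset.mem_filter, List.mem_toFinset] at hi
          rw [List.mem_toFinset, List.mem_filter]
          exact ⟨hi.1, (hS i).mpr ⟨hT' i hi.1, hi.2⟩⟩
        exact le_trans (Finset.card_le_card this) (List.toFinset_card_le _)
      omega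
    · rw [List.any_eq_true] at hleaf
      obtain ⟨q, hq, hSq⟩ := hleaf
      have hSq' := Nat.eq_of_beq_eq_true hSq
      refine ⟨x, hxK, maskSet f X.length q.1, certOK_sound hf hcov (hcerts' q hq), ?_⟩
      intro u hu hux
      obtain ⟨i, hi, rfl⟩ := hcov u hu
      refine mem_maskSet.mpr ⟨i, hi, ?_, rfl⟩
      have h1 : S.testBit i = true := (hS i).mpr ⟨hi, hux⟩
      rw [← hSq', Nat.testBit_and, Bool.and_eq_true] at h1
      exact h1.2
  intro c d hc hd hcd
  obtain ⟨x, hx, Q, hQ, hcQ⟩ := key c hc
  obtain ⟨y, hy, Q', hQ', hdQ⟩ := key d hd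
  exact link hK hP hQ hQ' hx hy hc hd hcd hcQ hdQ

end

end Pool.Agent.Helper76.Recol
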