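import Pool.Agent.Helper76.Recol.Local

set_option autoImplicit false

namespace Pool.Agent.Helper76.Recol

variable {V : Type} [DecidableEq V] {G : SimpleGraph V}

def patW5 : Gr := [50, 37, 42, 52, 41, 31]
def patK3K1 : Gr := [6, 5, 3, 0]
def patC5K1 : Gr := [18, 5, 10, 20, 9, 0]
def patNet : Gr := [14, 21, 35, 1, 2, 4]

theorem roots_mem (X : Gr) (h : (cert4.any fun s => decide (s.X = X)) = true) :
    ∃ s ∈ cert4, s.X = X := by
  rw [List.any_eq_true] at h
  obtain ⟨s, hs, h⟩ := h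
  exact ⟨s, hs, of_decide_eq_true h⟩

theorem emb_K3K1 {U : Finset V} {a b c d : V} (ha : a ∈ U) (hb : b ∈ U) (hc : c ∈ U)
    (hd : d ∈ U) (hab : G.Adj a b) (hac : G.Adj a c) (hbc : G.Adj b c)
    (had : ¬ G.Adj a d) (hbd : ¬ G.Adj b d) (hcd : ¬ G.Adj c d)
    (nad : a ≠ d) (nbd : b ≠ d) (ncd : c ≠ d) :
    ∃ f, Emb G U patK3K1 f := by
  refine ⟨fun i => [a, b, c, d].getD i d, ?_, ?_, ?_⟩
  · intro i hi
    have hi' : i < 4 := hi
    interval_cases i <;> simp [ha, hb, hc, hd]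
  · intro i hi j hj hij
    have hi' : i < 4 := hi
    have hj' : j < 4 := hj
    interval_cases i <;> interval_cases j <;>
      simp_all [hab.ne, hab.ne', hac.ne, hac.ne', hbc.ne, hbc.ne', nad.symm, nbd.symm, ncd.symm]
  · intro i hi j hj
    have hi' : i < 4 := hi
    have hj' : j < 4 := hj
    have hda : ¬ G.Adj d a := fun h => had h.symm
    have hdb : ¬ G.Adj d b := fun h => hbd h.symm
    have hdc : ¬ G.Adj d c := fun h => hcd h.symm
    interval_cases i <;> interval_cases j <;>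
      simp [adjB, patK3K1, hab, hac, hbc, hab.symm, hac.symm, hbc.symm, had, hbd, hcd, hda, hdb,
        hdc, Nat.testBit]

/-- general constructor for embeddings of six-vertex patterns -/
theorem emb_six {U : Finset V} (X : Gr) (hX : X.length = 6) (v : Fin 6 → V)
    (hU : ∀ i, v i ∈ U) (hinj : ∀ i j, i < j → v i ≠ v j)
    (hadj : ∀ i j : Fin 6, i < j → (G.Adj (v i) (v j) ↔ adjB X i j = true))
    (hsym : ∀ i j : Fin 6, adjB X i j = adjB X j i) (hirr : ∀ i : Fin 6, adjB X i i = false) :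
    ∃ f, Emb G U X f := by
  refine ⟨fun i => if h : i < 6 then v ⟨i, h⟩ else v 0, ?_, ?_, ?_⟩
  · intro i hi
    rw [hX] at hi
    simp only [dif_pos hi]
    exact hU _
  · intro i hi j hj hij
    rw [hX] at hi hj
    simp only [dif_pos hi, dif_pos hj]
    rcases lt_or_gt_of_ne hij with h | h
    · exact hinj ⟨i, hi⟩ ⟨j, hj⟩ h
    · exact (hinj ⟨j, hj⟩ ⟨i, hi⟩ h).symm
  · intro i hi j hj
    rw [hX] at hi hj
    simp only [dif_pos hi, dif_pos hj]
    rcases lt_trichotomy i j with h | h | h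
    · exact hadj ⟨i, hi⟩ ⟨j, hj⟩ h
    · subst h
      have := hirr ⟨i, hi⟩
      simp only at this
      rw [this]
      simp
    · rw [SimpleGraph.adj_comm, hadj ⟨j, hj⟩ ⟨i, hi⟩ h]
      have := hsym ⟨i, hi⟩ ⟨j, hj⟩
      simp only at this
      rw [this]

theorem emb_W5 {U : Finset V} {c0 c1 c2 c3 c4 h : V} (h0 : c0 ∈ U) (h1 : c1 ∈ U) (h2 : c2 ∈ U)
    (h3 : c3 ∈ U) (h4 : c4 ∈ U) (hh : h ∈ U)
    (a01 : G.Adj c0 c1) (a12 : G.Adj c1 c2) (a23 : G.Adj c2 c3) (a34 : G.Adj c3 c4)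
    (a40 : G.Adj c4 c0) (n02 : ¬ G.Adj c0 c2) (n03 : ¬ G.Adj c0 c3) (n13 : ¬ G.Adj c1 c3)
    (n14 : ¬ G.Adj c1 c4) (n24 : ¬ G.Adj c2 c4)
    (b0 : G.Adj h c0) (b1 : G.Adj h c1) (b2 : G.Adj h c2) (b3 : G.Adj h c3) (b4 : G.Adj h c4) :
    ∃ f, Emb G U patW5 f := by
  have d02 : c0 ≠ c2 := by
    rintro rfl
    exact n03 a23
  have d03 : c0 ≠ c3 := by
    rintro rfl
    exact n02 a23.symm
  have d13 : c1 ≠ c3 := by
    rintro rfl
    exact n14 a34
  have d14 : c1 ≠ c4 := by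
    rintro rfl
    exact n13 a34.symm
  have d24 : c2 ≠ c4 := by
    rintro rfl
    exact n02 a40.symm
  refine emb_six patW5 rfl ![c0, c1, c2, c3, c4, h] ?_ ?_ ?_ (by decide) (by decide)
  · intro i
    fin_cases i <;> simp [h0, h1, h2, h3, h4, hh]
  · intro i j hij
    fin_cases i <;> fin_cases j <;>
      first
      | exact absurd hij (by decide)
      | simp [a01.ne, a12.ne, a23.ne, a34.ne, a40.ne', d02, d03, d13, d14, d24, b0.ne', b1.ne',
          b2.ne', b3.ne', b4.ne']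
  · intro i j hij
    fin_cases i <;> fin_cases j <;>
      first
      | exact absurd hij (by decide)
      | simp [adjB, patW5, Nat.testBit, a01, a12, a23, a34, a40.symm, n02, n03, n13, n14, n24,
          b0.symm, b1.symm, b2.symm, b3.symm, b4.symm]

theorem emb_C5K1 {U : Finset V} {c0 c1 c2 c3 c4 h : V} (h0 : c0 ∈ U) (h1 : c1 ∈ U)
    (h2 : c2 ∈ U) (h3 : c3 ∈ U) (h4 : c4 ∈ U) (hh : h ∈ U)
    (a01 : G.Adj c0 c1) (a12 : G.Adj c1 c2) (a23 : G.Adj c2 c3) (a34 : G.Adj c3 c4)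
    (a40 : G.Adj c4 c0) (n02 : ¬ G.Adj c0 c2) (n03 : ¬ G.Adj c0 c3) (n13 : ¬ G.Adj c1 c3)
    (n14 : ¬ G.Adj c1 c4) (n24 : ¬ G.Adj c2 c4)
    (b0 : ¬ G.Adj h c0) (b1 : ¬ G.Adj h c1) (b2 : ¬ G.Adj h c2) (b3 : ¬ G.Adj h c3)
    (b4 : ¬ G.Adj h c4) (e0 : c0 ≠ h) (e1 : c1 ≠ h) (e2 : c2 ≠ h) (e3 : c3 ≠ h) (e4 : c4 ≠ h) :
    ∃ f, Emb G U patC5K1 f := by
  have d02 : c0 ≠ c2 := by
    rintro rfl
    exact n03 a23
  have d03 : c0 ≠ c3 := by
    rintro rfl
    exact n02 a23.symm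
  have d13 : c1 ≠ c3 := by
    rintro rfl
    exact n14 a34
  have d14 : c1 ≠ c4 := by
    rintro rfl
    exact n13 a34.symm
  have d24 : c2 ≠ c4 := by
    rintro rfl
    exact n02 a40.symm
  have b0' : ¬ G.Adj c0 h := fun h => b0 h.symm
  have b1' : ¬ G.Adj c1 h := fun h => b1 h.symm
  have b2' : ¬ G.Adj c2 h := fun h => b2 h.symm
  have b3' : ¬ G.Adj c3 h := fun h => b3 h.symm
  have b4' : ¬ G.Adj c4 h := fun h => b4 h.symm
  refine emb_six patC5K1 rfl ![c0, c1, c2, c3, c4, h] ?_ ?_ ?_ (by decide) (by decide)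
  · intro i
    fin_cases i <;> simp [h0, h1, h2, h3, h4, hh]
  · intro i j hij
    fin_cases i <;> fin_cases j <;>
      first
      | exact absurd hij (by decide)
      | simp [a01.ne, a12.ne, a23.ne, a34.ne, a40.ne', d02, d03, d13, d14, d24, e0, e1, e2, e3, e4]
  · intro i j hij
    fin_cases i <;> fin_cases j <;>
      first
      | exact absurd hij (by decide)
      | simp [adjB, patC5K1, Nat.testBit, a01, a12, a23, a34, a40.symm, n02, n03, n13, n14, n24,
          b0', b1', b2', b3', b4']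

theorem emb_Net {U : Finset V} {a b c x y z : V} (ha : a ∈ U) (hb : b ∈ U)
    (hc : c ∈ U) (hx : x ∈ U) (hy : y ∈ U) (hz : z ∈ U)
    (ab : G.Adj a b) (ac : G.Adj a c) (bc : G.Adj b c) (ax : G.Adj a x) (by' : G.Adj b y)
    (cz : G.Adj c z) (nxy : ¬ G.Adj x y) (nxz : ¬ G.Adj x z) (nyz : ¬ G.Adj y z)
    (nxb : ¬ G.Adj x b) (nxc : ¬ G.Adj x c) (nya : ¬ G.Adj y a) (nyc : ¬ G.Adj y c)
    (nza : ¬ G.Adj z a) (nzb : ¬ G.Adj z b) (dxy : x ≠ y) (dxz : x ≠ z) (dyz : y ≠ z) :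
    ∃ f, Emb G U patNet f := by
  have dbx : b ≠ x := by
    rintro rfl
    exact nxc bc
  have dcx : c ≠ x := by
    rintro rfl
    exact nxb bc.symm
  have day : a ≠ y := by
    rintro rfl
    exact nyc ac
  have dcy : c ≠ y := by
    rintro rfl
    exact nya ac.symm
  have daz : a ≠ z := by
    rintro rfl
    exact nzb ab
  have dbz : b ≠ z := by
    rintro rfl
    exact nza ab.symm
  have m1 : ¬ G.Adj b x := fun h => nxb h.symm
  have m2 : ¬ G.Adj c x := fun h => nxc h.symm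
  have m3 : ¬ G.Adj a y := fun h => nya h.symm
  have m4 : ¬ G.Adj c y := fun h => nyc h.symm
  have m5 : ¬ G.Adj a z := fun h => nza h.symm
  have m6 : ¬ G.Adj b z := fun h => nzb h.symm
  refine emb_six patNet rfl ![a, b, c, x, y, z] ?_ ?_ ?_ (by decide) (by decide)
  · intro i
    fin_cases i <;> simp [ha, hb, hc, hx, hy, hz]
  · intro i j hij
    fin_cases i <;> fin_cases j <;>
      first
      | exact absurd hij (by decide)
      | simp [ab.ne, ac.ne, bc.ne, ax.ne, by'.ne, cz.ne, dxy, dxz, dyz, dbx, dcx, day, dcy, daz,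
          dbz]
  · intro i j hij
    fin_cases i <;> fin_cases j <;>
      first
      | exact absurd hij (by decide)
      | simp [adjB, patNet, Nat.testBit, ab, ac, bc, ax, by', cz, nxy, nxz, nyz, m1, m2, m3, m4,
          m5, m6]

/-- every `(2K₂, K₄)`-free graph is 5-mixing -/
theorem mix_five (h2 : ∀ a b c d : V, G.Adj a b → G.Adj c d → a ≠ c → a ≠ d → b ≠ c → b ≠ d →
        G.Adj a c ∨ G.Adj a d ∨ G.Adj b c ∨ G.Adj b d)
    (h4 : ∀ a b c d : V, G.Adj a b → G.Adj a c → G.Adj a d → G.Adj b c → G.Adj b d →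
        G.Adj c d → False)
    (K : Finset ℕ) (hK : K.card = 5) (U : Finset V) : MixOn G U K := by
  classical
  refine mix_induct K 4 (by omega) (fun _ => True) (fun _ _ _ _ => trivial) ?_ U trivial
  intro U _ hirr hdeg
  rcases U.eq_empty_or_nonempty with rfl | ⟨v0, hv0⟩
  · exact mixOn_empty K
  have hsound := checkAll_sound h2 h4 hirr hdeg (nc := false) (fun h => absurd h (by simp))
      (C := MixOn G U K) cert4 [] (by simp)
      (finCheck_sound cert4_fin_ok hK (fun U' _ K' hK' hU' => mix_three h2 h4 K' hK' U' hU'))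
      cert4_ok
  have hroot : ∀ X : Gr, (cert4.any fun s => decide (s.X = X)) = true →
      (∃ f, Emb G U X f) → MixOn G U K := by
    intro X hX hf
    obtain ⟨s, hs, rfl⟩ := roots_mem X hX
    obtain ⟨f, hf⟩ := hf
    exact hsound s hs f hf
  by_contra hnot
  have noW5 : ¬ ∃ f, Emb G U patW5 f := fun h => hnot (hroot _ (by decide +kernel) h)
  have noK3 : ¬ ∃ f, Emb G U patK3K1 f := fun h => hnot (hroot _ (by decide +kernel) h)
  have noC5 : ¬ ∃ f, Emb G U patC5K1 f := fun h => hnot (hroot _ (by decide +kernel) h)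
  have noNet : ¬ ∃ f, Emb G U patNet f := fun h => hnot (hroot _ (by decide +kernel) h)
  apply hnot
  -- neighbourhoods are bipartite
  have hN : ∀ e ∈ U, ColOn G (Nset G U e) 2 := by
    intro e he
    refine colOn_two h2 _ ?_ ?_
    · intro a ha b hb c hc hab hbc hac
      unfold Nset at ha hb hc
      rw [Finset.mem_filter] at ha hb hc
      exact h4 e a b c ha.2 hb.2 hc.2 hab hac hbc
    · intro a ha b hb c hc d hd f hf ab bc cd df fa nac nad nbd nbf ncf
      unfold Nset at ha hb hc hd hf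
      rw [Finset.mem_filter] at ha hb hc hd hf
      exact noW5 (emb_W5 ha.1 hb.1 hc.1 hd.1 hf.1 he ab bc cd df fa nac nad nbd nbf ncf
        ha.2 hb.2 hc.2 hd.2 hf.2)
  -- non-neighbourhoods are bipartite
  have hM : ∀ e ∈ U, ColOn G (Mset G U e) 2 := by
    intro e he
    refine colOn_two h2 _ ?_ ?_
    · intro a ha b hb c hc hab hbc hac
      unfold Mset at ha hb hc
      rw [Finset.mem_filter] at ha hb hc
      exact noK3 (emb_K3K1 ha.1 hb.1 hc.1 he hab hac hbc (fun h => ha.2.2 h.symm)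
        (fun h => hb.2.2 h.symm) (fun h => hc.2.2 h.symm) ha.2.1 hb.2.1 hc.2.1)
    · intro a ha b hb c hc d hd f hf ab bc cd df fa nac nad nbd nbf ncf
      unfold Mset at ha hb hc hd hf
      rw [Finset.mem_filter] at ha hb hc hd hf
      exact noC5 (emb_C5K1 ha.1 hb.1 hc.1 hd.1 hf.1 he ab bc cd df fa nac nad nbd nbf ncf
        ha.2.2 hb.2.2 hc.2.2 hd.2.2 hf.2.2 ha.2.1 hb.2.1 hc.2.1 hd.2.1 hf.2.1)
  have hβ : ∃ β : V → V → ℕ, ∀ e ∈ U, ProperOn G (Mset G U e) (Finset.range 2) (β e) := by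
    choose! β hβ using hM
    exact ⟨β, hβ⟩
  obtain ⟨β, hβ⟩ := hβ
  have hnet : ∀ a ∈ U, ∀ b ∈ U, ∀ c ∈ U, ∀ x ∈ U, ∀ y ∈ U, ∀ z ∈ U,
      G.Adj a b → G.Adj a c → G.Adj b c → G.Adj a x → G.Adj b y → G.Adj c z →
      ¬ G.Adj x y → ¬ G.Adj x z → ¬ G.Adj y z → ¬ G.Adj x b → ¬ G.Adj x c → ¬ G.Adj y a →
      ¬ G.Adj y c → ¬ G.Adj z a → ¬ G.Adj z b → x ≠ y → x ≠ z → y ≠ z → False := by
    intro a ha b hb c hc x hx y hy z hz ab ac bc ax by' cz nxy nxz nyz nxb nxc nya nyc nza nzb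
      dxy dxz dyz
    exact noNet (emb_Net ha hb hc hx hy hz ab ac bc ax by' cz nxy nxz nyz nxb nxc nya nyc nza nzb
      dxy dxz dyz)
  -- every colouring has a class in a good set
  have key : ∀ c : V → ℕ, ProperOn G U K c → ∃ x ∈ K, ∃ Q, Good G U 3 Q ∧
      ∀ u ∈ U, c u = x → u ∈ Q := by
    intro c hc
    let S : Finset V := U.filter fun u => c u = c v0
    have hSU : S ⊆ U := Finset.filter_subset _ _
    have hSind : ∀ a ∈ S, ∀ b ∈ S, ¬ G.Adj a b := by
      intro a ha b hb hab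
      simp only [S, Finset.mem_filter] at ha hb
      exact hc.2 a ha.1 b hb.1 hab (ha.2.trans hb.2.symm)
    let F : Finset (Finset V) := U.powerset.filter fun Q => S ⊆ Q ∧ ∀ a ∈ Q, ∀ b ∈ Q, ¬ G.Adj a b
    have hF : F.Nonempty := ⟨S, by
      simp only [F, Finset.mem_filter, Finset.mem_powerset]
      exact ⟨hSU, Finset.Subset.refl _, hSind⟩⟩
    obtain ⟨Q, hQF, hQmax⟩ := Finset.exists_max_image F (fun Q => Q.card) hF
    simp only [F, Finset.mem_filter, Finset.mem_powerset] at hQF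
    obtain ⟨hQU, hSQ, hQ⟩ := hQF
    have hv0S : v0 ∈ S := by simp [S, hv0]
    refine ⟨c v0, hc.1 v0 hv0, Q, ?_, ?_⟩
    · refine good_of_maximal h2 hirr hβ hnet hN hQU hQ ⟨v0, hSQ hv0S⟩ ?_
      intro w hw hwQ
      by_contra hcon
      push Not at hcon
      have hmem : insert w Q ∈ F := by
        simp only [F, Finset.mem_filter, Finset.mem_powerset]
        refine ⟨?_, ?_, ?_⟩
        · intro x hx
          rcases Finset.mem_insert.mp hx with rfl | hx
          · exact hw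
          · exact hQU hx
        · exact fun x hx => Finset.mem_insert_of_mem (hSQ hx)
        · intro a ha b hb hab
          rcases Finset.mem_insert.mp ha with h | ha
          · rw [h] at hab
            rcases Finset.mem_insert.mp hb with h' | hb
            · rw [h'] at hab
              exact G.irrefl hab
            · exact hcon b hb hab
          · rcases Finset.mem_insert.mp hb with h' | hb
            · rw [h'] at hab
              exact hcon a ha hab.symm
            · exact hQ a ha b hb hab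
      have h1 : (insert w Q).card ≤ Q.card := hQmax _ hmem
      rw [Finset.card_insert_of_notMem hwQ] at h1
      omega
    · intro u hu hux
      apply hSQ
      simp only [S, Finset.mem_filter]
      exact ⟨hu, hux⟩
  intro c d hc hd hcd
  obtain ⟨x, hx, Q, hQ, hcQ⟩ := key c hc
  obtain ⟨y, hy, Q', hQ', hdQ⟩ := key d hd
  exact link hK (fun U' _ K' hK' hU' => mix_three h2 h4 K' hK' U' hU') hQ hQ' hx hy hc hd hcd
    hcQ hdQ

end Pool.Agent.Helper76.Recol
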