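import Pool.Agent.Helper76.Recol.Main

set_option autoImplicit false

namespace Pool.Agent.Helper76.Recol

variable {V : Type} [DecidableEq V] {G : SimpleGraph V}

/-- a `2K₂`-free graph without triangles and induced 5-cycles is bipartite -/
theorem colOn_two (h2 : ∀ a b c d : V, G.Adj a b → G.Adj c d → a ≠ c → a ≠ d → b ≠ c → b ≠ d →
        G.Adj a c ∨ G.Adj a d ∨ G.Adj b c ∨ G.Adj b d)
    (S : Finset V)
    (h3 : ∀ a ∈ S, ∀ b ∈ S, ∀ c ∈ S, G.Adj a b → G.Adj b c → G.Adj a c → False)
    (h5 : ∀ a ∈ S, ∀ b ∈ S, ∀ c ∈ S, ∀ d ∈ S, ∀ e ∈ S, G.Adj a b → G.Adj b c → G.Adj c d →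
      G.Adj d e → G.Adj e a → ¬ G.Adj a c → ¬ G.Adj a d → ¬ G.Adj b d → ¬ G.Adj b e →
      ¬ G.Adj c e → False) : ColOn G S 2 := by
  classical
  by_cases hE : ∃ x ∈ S, ∃ y ∈ S, G.Adj x y
  · obtain ⟨x, hx, y, hy, hxy⟩ := hE
    let f : V → ℕ := fun z => if G.Adj x z then 1 else if G.Adj y z then 0 else
      if ∃ a ∈ S, G.Adj x a ∧ G.Adj z a then 0 else 1
    refine ⟨f, ?_, ?_⟩
    · intro u _
      rw [Finset.mem_range]
      simp only [f]
      split_ifs <;> norm_num
    · -- one-sided version
      have key : ∀ u ∈ S, ∀ v ∈ S, G.Adj u v → f u = 1 → f v = 1 → False := by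
        intro u hu v hv huv hfu hfv
        by_cases hxu : G.Adj x u
        · by_cases hxv : G.Adj x v
          · exact h3 x hx u hu v hv hxu huv hxv
          · by_cases hyv : G.Adj y v
            · simp only [f, if_neg hxv, if_pos hyv] at hfv
              exact absurd hfv (by norm_num)
            · have : ∃ a ∈ S, G.Adj x a ∧ G.Adj v a := ⟨u, hu, hxu, huv.symm⟩
              simp only [f, if_neg hxv, if_neg hyv, if_pos this] at hfv
              exact absurd hfv (by norm_num)
        · by_cases hyu : G.Adj y u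
          · simp only [f, if_neg hxu, if_pos hyu] at hfu
            exact absurd hfu (by norm_num)
          · by_cases hxv : G.Adj x v
            · have : ∃ a ∈ S, G.Adj x a ∧ G.Adj u a := ⟨v, hv, hxv, huv⟩
              simp only [f, if_neg hxu, if_neg hyu, if_pos this] at hfu
              exact absurd hfu (by norm_num)
            · by_cases hyv : G.Adj y v
              · simp only [f, if_neg hxv, if_pos hyv] at hfv
                exact absurd hfv (by norm_num)
              · rcases h2 x y u v hxy huv (by rintro rfl; exact hyu hxy.symm)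
                  (by rintro rfl; exact hyv hxy.symm) (by rintro rfl; exact hxu hxy)
                  (by rintro rfl; exact hxv hxy) with h | h | h | h
                · exact hxu h
                · exact hxv h
                · exact hyu h
                · exact hyv h
      have key0 : ∀ u ∈ S, ∀ v ∈ S, G.Adj u v → f u = 0 → f v = 0 → False := by
        intro u hu v hv huv hfu hfv
        have hxu : ¬ G.Adj x u := by
          intro h
          simp only [f, if_pos h] at hfu
          exact absurd hfu (by norm_num)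
        have hxv : ¬ G.Adj x v := by
          intro h
          simp only [f, if_pos h] at hfv
          exact absurd hfv (by norm_num)
        -- general C5 argument
        have c5 : ∀ z ∈ S, ∀ w ∈ S, G.Adj z w → ¬ G.Adj x z → ¬ G.Adj x w → G.Adj y z →
            ¬ G.Adj y w → f w = 0 → False := by
          intro z hz w hw hzw hxz hxw hyz hyw hfw
          by_cases hex : ∃ a ∈ S, G.Adj x a ∧ G.Adj w a
          · obtain ⟨a, ha, hxa, hwa⟩ := hex
            refine h5 x hx a ha w hw z hz y hy hxa hwa.symm hzw.symm hyz.symm hxy.symm hxw hxz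
              ?_ ?_ ?_
            · intro h
              exact h3 a ha z hz w hw h hzw hwa.symm
            · intro h
              exact h3 x hx a ha y hy hxa h hxy
            · intro h
              exact hyw h.symm
          · simp only [f, if_neg hxw, if_neg hyw, if_neg hex] at hfw
            exact absurd hfw (by norm_num)
        by_cases hyu : G.Adj y u
        · by_cases hyv : G.Adj y v
          · exact h3 y hy u hu v hv hyu huv hyv
          · exact c5 u hu v hv huv hxu hxv hyu hyv hfv
        · by_cases hyv : G.Adj y v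
          · exact c5 v hv u hu huv.symm hxv hxu hyv hyu hfu
          · rcases h2 x y u v hxy huv (by rintro rfl; exact hyu hxy.symm)
              (by rintro rfl; exact hyv hxy.symm) (by rintro rfl; exact hxu hxy)
              (by rintro rfl; exact hxv hxy) with h | h | h | h
            · exact hxu h
            · exact hxv h
            · exact hyu h
            · exact hyv h
      intro u hu v hv huv heq
      have hrange : f u = 0 ∨ f u = 1 := by
        simp only [f]
        split_ifs <;> simp
      rcases hrange with h | h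
      · exact key0 u hu v hv huv h (heq ▸ h)
      · exact key u hu v hv huv h (heq ▸ h)
  · push Not at hE
    refine ⟨fun _ => 0, fun _ _ => by simp, ?_⟩
    intro u hu v hv huv
    exact absurd huv (hE u hu v hv)

/-- the non-neighbours of `e` in `U` -/
def Mset (G : SimpleGraph V) [DecidableRel G.Adj] (U : Finset V) (e : V) : Finset V :=
  U.filter fun x => x ≠ e ∧ ¬ G.Adj e x

/-- the neighbours of `e` in `U` -/
def Nset (G : SimpleGraph V) [DecidableRel G.Adj] (U : Finset V) (e : V) : Finset V :=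
  U.filter fun x => G.Adj e x

section between

variable [DecidableRel G.Adj]
  (h2 : ∀ a b c d : V, G.Adj a b → G.Adj c d → a ≠ c → a ≠ d → b ≠ c → b ≠ d →
        G.Adj a c ∨ G.Adj a d ∨ G.Adj b c ∨ G.Adj b d)
  {U : Finset V} (hirr : Irr G U)
  {β : V → V → ℕ} (hβ : ∀ e ∈ U, ProperOn G (Mset G U e) (Finset.range 2) (β e))

include hirr in
theorem exists_nbr {e l : V} (he : e ∈ U) (hl : l ∈ U) (hel : e ≠ l) (hadj : ¬ G.Adj e l) :
    ∃ w ∈ Mset G U e, G.Adj l w := by
  obtain ⟨w, hw, h1, h3⟩ := hirr l hl e he hel.symm (fun h => hadj h.symm)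
  refine ⟨w, ?_, h1⟩
  unfold Mset
  rw [Finset.mem_filter]
  refine ⟨hw, ?_, h3⟩
  rintro rfl
  exact hadj h1.symm

include h2 hirr hβ in
/-- two vertices on different sides of `M(e)` -/
theorem path4 {e l r : V} (he : e ∈ U) (hl : l ∈ U) (hr : r ∈ U) (hel : e ≠ l) (her : e ≠ r)
    (hlr : l ≠ r) (ael : ¬ G.Adj e l) (aer : ¬ G.Adj e r) (alr : ¬ G.Adj l r)
    (hb : β e l ≠ β e r) :
    ∃ l' ∈ Mset G U e, ∃ r' ∈ Mset G U e, G.Adj l r' ∧ G.Adj r l' ∧ G.Adj r' l' ∧
      β e l' = β e l ∧ β e r' = β e r ∧ ¬ G.Adj l l' ∧ ¬ G.Adj r r' := by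
  have hlM : l ∈ Mset G U e := by
    unfold Mset
    rw [Finset.mem_filter]
    exact ⟨hl, hel.symm, ael⟩
  have hrM : r ∈ Mset G U e := by
    unfold Mset
    rw [Finset.mem_filter]
    exact ⟨hr, her.symm, aer⟩
  obtain ⟨r', hr', a1⟩ := exists_nbr hirr he hl hel ael
  obtain ⟨l', hl', a2⟩ := exists_nbr hirr he hr her aer
  have hp := hβ e he
  have c1 := hp.2 l hlM r' hr' a1
  have c2 := hp.2 r hrM l' hl' a2
  have r1 := Finset.mem_range.mp (hp.1 l hlM)
  have r2 := Finset.mem_range.mp (hp.1 r hrM)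
  have r3 := Finset.mem_range.mp (hp.1 r' hr')
  have r4 := Finset.mem_range.mp (hp.1 l' hl')
  have e1 : β e l' = β e l := by omega
  have e2 : β e r' = β e r := by omega
  have n1 : ¬ G.Adj l l' := fun h => hp.2 l hlM l' hl' h e1.symm
  have n2 : ¬ G.Adj r r' := fun h => hp.2 r hrM r' hr' h e2.symm
  have hlr' : G.Adj r' l' := by
    have d1 : l ≠ l' := by
      rintro rfl
      exact alr a2.symm
    have d2 : r' ≠ r := by
      rintro rfl
      exact alr a1
    have d3 : r' ≠ l' := by
      rintro rfl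
      omega
    rcases h2 l r' r l' a1 a2 hlr d1 d2 d3 with h | h | h | h
    · exact absurd h alr
    · exact absurd h n1
    · exact absurd h.symm n2
    · exact h
  exact ⟨l', hl', r', hr', a1, a2, hlr', e1, e2, n1, n2⟩

variable (hnet : ∀ a ∈ U, ∀ b ∈ U, ∀ c ∈ U, ∀ x ∈ U, ∀ y ∈ U, ∀ z ∈ U,
    G.Adj a b → G.Adj a c → G.Adj b c → G.Adj a x → G.Adj b y → G.Adj c z →
    ¬ G.Adj x y → ¬ G.Adj x z → ¬ G.Adj y z → ¬ G.Adj x b → ¬ G.Adj x c → ¬ G.Adj y a →
    ¬ G.Adj y c → ¬ G.Adj z a → ¬ G.Adj z b → x ≠ y → x ≠ z → y ≠ z → False)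

include h2 hirr hβ hnet in
/-- of three pairwise non-adjacent vertices at most one lies between the other two -/
theorem not_both {e l r : V} (he : e ∈ U) (hl : l ∈ U) (hr : r ∈ U) (hel : e ≠ l) (her : e ≠ r)
    (hlr : l ≠ r) (ael : ¬ G.Adj e l) (aer : ¬ G.Adj e r) (alr : ¬ G.Adj l r)
    (hb : β e l ≠ β e r) (hb' : β l e ≠ β l r) : False := by
  obtain ⟨l', hl', r', hr', a1, a2, a3, _, _, n1, n2⟩ :=
    path4 h2 hirr hβ he hl hr hel her hlr ael aer alr hb
  obtain ⟨e'', _, r'', hr'', b1, _, _, _, c2, _, m2⟩ :=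
    path4 h2 hirr hβ hl he hr hel.symm hlr her (fun h => ael h.symm) alr aer hb'
  unfold Mset at hl' hr' hr''
  rw [Finset.mem_filter] at hl' hr' hr''
  -- `r'' ~ l'`
  have k1 : G.Adj r'' l' := by
    have d1 : e ≠ l' := hl'.2.1.symm
    have d2 : r'' ≠ r := by
      rintro rfl
      exact aer b1
    have d3 : r'' ≠ l' := by
      rintro rfl
      exact hl'.2.2 b1
    rcases h2 e r'' r l' b1 a2 her d1 d2 d3 with h | h | h | h
    · exact absurd h aer
    · exact absurd h hl'.2.2
    · exact absurd h.symm m2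
    · exact h
  -- `r'' ~ r'`
  have k2 : G.Adj r'' r' := by
    have d1 : e ≠ r' := hr'.2.1.symm
    have d2 : r'' ≠ l := hr''.2.1
    have d3 : r'' ≠ r' := by
      rintro rfl
      exact hr'.2.2 b1
    rcases h2 e r'' l r' b1 a1 hel d1 d2 d3 with h | h | h | h
    · exact absurd h ael
    · exact absurd h hr'.2.2
    · exact absurd h.symm hr''.2.2
    · exact h
  exact hnet r'' hr''.1 r' hr'.1 l' hl'.1 e he l hl r hr k2 k1 a3 b1.symm a1.symm a2.symm
    ael aer alr hr'.2.2 hl'.2.2 hr''.2.2 n1 m2 n2 hel her hlr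

include h2 hirr hβ hnet in
/-- a nonempty independent set has an extreme vertex -/
theorem exists_extreme {Q : Finset V} (hQU : Q ⊆ U) (hQ : ∀ a ∈ Q, ∀ b ∈ Q, ¬ G.Adj a b)
    (hne : Q.Nonempty) :
    ∃ f ∈ Q, ∀ g ∈ Q, ∀ h ∈ Q, g ≠ f → h ≠ f → β f g = β f h := by
  classical
  by_cases hcard : ∃ a ∈ Q, ∃ b ∈ Q, a ≠ b
  · let B : V × V → Finset V := fun p => Q.filter fun x => x ≠ p.1 ∧ x ≠ p.2 ∧ β x p.1 ≠ β x p.2
    let S : Finset (V × V) := (Q ×ˢ Q).filter fun p => p.1 ≠ p.2
    have hS : S.Nonempty := by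
      obtain ⟨a, ha, b, hb, hab⟩ := hcard
      exact ⟨(a, b), by simp [S, ha, hb, hab]⟩
    obtain ⟨⟨e, f⟩, hef, hmax⟩ := Finset.exists_max_image S (fun p => (B p).card) hS
    simp only [S, Finset.mem_filter, Finset.mem_product] at hef
    obtain ⟨⟨heQ, hfQ⟩, hef⟩ := hef
    refine ⟨f, hfQ, ?_⟩
    by_contra hcon
    push Not at hcon
    obtain ⟨g, hg, h, hh, hgf, hhf, hgh⟩ := hcon
    -- pick the one on the other side of `e`
    obtain ⟨k, hk, hkf, hke⟩ : ∃ k ∈ Q, k ≠ f ∧ β f e ≠ β f k := by
      by_cases h1 : β f e = β f g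
      · exact ⟨h, hh, hhf, fun h3 => hgh (h1.symm.trans h3)⟩
      · exact ⟨g, hg, hgf, h1⟩
    have hek : e ≠ k := by
      rintro rfl
      exact hke rfl
    have nb : ∀ x y z : V, x ∈ Q → y ∈ Q → z ∈ Q → x ≠ y → x ≠ z → y ≠ z →
        β x y ≠ β x z → β y x ≠ β y z → False := fun x y z hx hy hz hxy hxz hyz h1 h3 =>
      not_both h2 hirr hβ hnet (hQU hx) (hQU hy) (hQU hz) hxy hxz hyz (hQ x hx y hy)
        (hQ x hx z hz) (hQ y hy z hz) h1 h3
    have hsub : insert f (B (e, f)) ⊆ B (e, k) := by
      intro x hx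
      rw [Finset.mem_insert] at hx
      rcases hx with rfl | hx
      · simp only [B, Finset.mem_filter]
        exact ⟨hfQ, fun h => hef h.symm, hkf.symm, hke⟩
      · simp only [B, Finset.mem_filter] at hx ⊢
        obtain ⟨hxQ, hxe, hxf, hxef⟩ := hx
        have hxk : x ≠ k := by
          rintro rfl
          -- `x` between `e` and `f`, `f` between `e` and `x`
          exact nb x f e hxQ hfQ heQ hxf hxe (Ne.symm hef) (fun h => hxef h.symm)
            (fun h => hke h.symm)
        refine ⟨hxQ, hxe, hxk, ?_⟩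
        intro heq
        have h1 : β x f ≠ β x k := fun h => hxef (heq.trans h.symm)
        by_cases h3 : β f x = β f k
        · -- then `f` is between `x` and `e`
          have h5 : β f x ≠ β f e := fun h => hke (h.symm.trans h3)
          exact nb x f e hxQ hfQ heQ hxf hxe (Ne.symm hef) (fun h => hxef h.symm) h5
        · exact nb x f k hxQ hfQ hk hxf hxk hkf.symm h1 h3
    have hfB : f ∉ B (e, f) := by
      simp [B]
    have h1 := Finset.card_le_card hsub
    rw [Finset.card_insert_of_notMem hfB] at h1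
    have h3 : (B (e, k)).card ≤ (B (e, f)).card := hmax (e, k) (by simp [S, heQ, hk, hek])
    omega
  · push Not at hcard
    obtain ⟨a, ha⟩ := hne
    refine ⟨a, ha, ?_⟩
    intro g hg h hh hga _
    exact absurd (hcard g hg a ha) hga

include h2 hirr hβ hnet in
/-- every maximal independent set is good -/
theorem good_of_maximal (hN : ∀ e ∈ U, ColOn G (Nset G U e) 2) {Q : Finset V} (hQU : Q ⊆ U)
    (hQ : ∀ a ∈ Q, ∀ b ∈ Q, ¬ G.Adj a b) (hne : Q.Nonempty)
    (hmax : ∀ w ∈ U, w ∉ Q → ∃ q ∈ Q, G.Adj w q) : Good G U 3 Q := by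
  classical
  obtain ⟨e, he, hext⟩ := exists_extreme h2 hirr hβ hnet hQU hQ hne
  refine ⟨hQU, hQ, ?_⟩
  obtain ⟨γ, hγ⟩ := hN e (hQU he)
  refine ⟨fun w => if G.Adj e w then γ w else 2, ?_, ?_⟩
  · intro w hw
    rw [Finset.mem_sdiff] at hw
    rw [Finset.mem_range]
    by_cases h1 : G.Adj e w
    · simp only [h1, if_true]
      have := hγ.1 w (by unfold Nset; rw [Finset.mem_filter]; exact ⟨hw.1, h1⟩)
      rw [Finset.mem_range] at this
      omega
    · simp only [h1, if_false]
      norm_num
  · intro u hu v hv huv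
    rw [Finset.mem_sdiff] at hu hv
    by_cases h1 : G.Adj e u
    · have hu' : u ∈ Nset G U e := by unfold Nset; rw [Finset.mem_filter]; exact ⟨hu.1, h1⟩
      have hru := Finset.mem_range.mp (hγ.1 u hu')
      by_cases h3 : G.Adj e v
      · have hv' : v ∈ Nset G U e := by unfold Nset; rw [Finset.mem_filter]; exact ⟨hv.1, h3⟩
        simp only [h1, h3, if_true]
        exact hγ.2 u hu' v hv' huv
      · simp only [h1, h3, if_true, if_false]
        omega
    · by_cases h3 : G.Adj e v
      · have hv' : v ∈ Nset G U e := by unfold Nset; rw [Finset.mem_filter]; exact ⟨hv.1, h3⟩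
        have hrv := Finset.mem_range.mp (hγ.1 v hv')
        simp only [h1, h3, if_true, if_false]
        omega
      · -- both in `M(e) \ Q`
        exfalso
        have hp := hβ e (hQU he)
        have mem : ∀ w ∈ U, w ∉ Q → ¬ G.Adj e w → w ∈ Mset G U e := by
          intro w hw hwQ hadj
          unfold Mset
          rw [Finset.mem_filter]
          refine ⟨hw, ?_, hadj⟩
          rintro rfl
          exact hwQ he
        have memQ : ∀ q ∈ Q, q ≠ e → q ∈ Mset G U e := by
          intro q hq hqe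
          unfold Mset
          rw [Finset.mem_filter]
          exact ⟨hQU hq, hqe, hQ e he q hq⟩
        have huM := mem u hu.1 hu.2 h1
        have hvM := mem v hv.1 hv.2 h3
        obtain ⟨q, hq, huq⟩ := hmax u hu.1 hu.2
        obtain ⟨q', hq', hvq'⟩ := hmax v hv.1 hv.2
        have hqe : q ≠ e := by
          rintro rfl
          exact h1 huq.symm
        have hqe' : q' ≠ e := by
          rintro rfl
          exact h3 hvq'.symm
        have e1 := hext q hq q' hq' hqe hqe'
        have e2 := hp.2 u huM q (memQ q hq hqe) huq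
        have e3 := hp.2 v hvM q' (memQ q' hq' hqe') hvq'
        have e5 := hp.2 u huM v hvM huv
        have r1 := Finset.mem_range.mp (hp.1 u huM)
        have r2 := Finset.mem_range.mp (hp.1 v hvM)
        have r3 := Finset.mem_range.mp (hp.1 q (memQ q hq hqe))
        omega

end between

end Pool.Agent.Helper76.Recol
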