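import Pool.Agent.Helper76.Recol.Cert

set_option autoImplicit false

namespace Pool.Agent.Helper76.Recol

variable {V : Type} [DecidableEq V] {G : SimpleGraph V}

/-- no comparable pair of vertices in `G[U]` -/
def Irr (G : SimpleGraph V) (U : Finset V) : Prop :=
  ∀ u ∈ U, ∀ v ∈ U, u ≠ v → ¬ G.Adj u v → ∃ w ∈ U, G.Adj u w ∧ ¬ G.Adj v w

/-- all degrees of `G[U]` are at least `D` -/
def DegGe (G : SimpleGraph V) (U : Finset V) (D : ℕ) : Prop :=
  ∀ v ∈ U, ∀ N : Finset V, (∀ w ∈ U, G.Adj v w → w ∈ N) → D ≤ N.card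

theorem mix_induct (K : Finset ℕ) (D : ℕ) (hD : D + 1 = K.card) (Pr : Finset V → Prop)
    (hmono : ∀ U U', U' ⊆ U → Pr U → Pr U')
    (hbase : ∀ U, Pr U → Irr G U → DegGe G U D → MixOn G U K) :
    ∀ U, Pr U → MixOn G U K := by
  intro U
  induction U using Finset.strongInduction with
  | H U ih =>
    intro hU
    by_cases hirr : Irr G U
    · by_cases hdeg : DegGe G U D
      · exact hbase U hU hirr hdeg
      · unfold DegGe at hdeg
        push Not at hdeg
        obtain ⟨v, hv, N, hN, hcard⟩ := hdeg
        exact mixOn_of_small_degree hv N hN (by omega)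
          (ih _ (Finset.erase_ssubset hv) (hmono _ _ (Finset.erase_subset _ _) hU))
    · unfold Irr at hirr
      push Not at hirr
      obtain ⟨u, hu, v, hv, huv, hadj, hN⟩ := hirr
      exact mixOn_of_comparable hu hv huv hadj hN
        (ih _ (Finset.erase_ssubset hu) (hmono _ _ (Finset.erase_subset _ _) hU))

theorem mixOn_empty (K : Finset ℕ) : MixOn G ∅ K := by
  intro c d _ _ h
  have : c = d := funext fun v => h v (Finset.notMem_empty v)
  rw [this]
  exact Reach.refl _

variable (h2 : ∀ a b c d : V, G.Adj a b → G.Adj c d → a ≠ c → a ≠ d → b ≠ c → b ≠ d →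
        G.Adj a c ∨ G.Adj a d ∨ G.Adj b c ∨ G.Adj b d)
  (h4 : ∀ a b c d : V, G.Adj a b → G.Adj a c → G.Adj a d → G.Adj b c → G.Adj b d →
        G.Adj c d → False)

include h2 in
/-- bipartite `2K₂`-free graphs: 3 colours -/
theorem mix_two (K : Finset ℕ) (hK : K.card = 3) (U : Finset V) (hU : ColOn G U 2) :
    MixOn G U K := by
  refine mix_induct K 2 (by omega) (fun U => ColOn G U 2) (fun U U' h hU => hU.mono h) ?_ U hU
  intro U hU hirr hdeg
  rcases U.eq_empty_or_nonempty with rfl | ⟨v, hv⟩
  · exact mixOn_empty K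
  · exfalso
    obtain ⟨f, hf⟩ := hU
    have h1 := hdeg v hv (U.erase v) (fun w hw hvw => Finset.mem_erase.mpr ⟨hvw.ne', hw⟩)
    rw [Finset.card_erase_of_mem hv] at h1
    have h3 : (Finset.range 2).card < U.card := by
      rw [Finset.card_range]
      omega
    obtain ⟨x, hx, y, hy, hxy, hfxy⟩ := Finset.exists_ne_map_eq_of_card_lt_of_maps_to h3
      (f := f) (fun a ha => hf.1 a ha)
    have hnadj : ¬ G.Adj x y := fun h => hf.2 x hx y hy h hfxy
    obtain ⟨a, ha, hxa, hya⟩ := hirr x hx y hy hxy hnadj
    obtain ⟨b, hb, hyb, hxb⟩ := hirr y hy x hx hxy.symm (fun h => hnadj h.symm)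
    have hab : ¬ G.Adj a b := by
      intro h
      have e1 := hf.2 a ha b hb h
      have e2 := hf.2 x hx a ha hxa
      have e3 := hf.2 y hy b hb hyb
      have r1 := Finset.mem_range.mp (hf.1 a ha)
      have r2 := Finset.mem_range.mp (hf.1 b hb)
      have r3 := Finset.mem_range.mp (hf.1 x hx)
      have r4 := Finset.mem_range.mp (hf.1 y hy)
      omega
    have hne1 : x ≠ b := by
      rintro rfl
      exact hnadj hyb.symm
    have hne2 : a ≠ y := by
      rintro rfl
      exact hnadj hxa
    have hne3 : a ≠ b := by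
      rintro rfl
      exact hya hyb
    rcases h2 x a y b hxa hyb hxy hne1 hne2 hne3 with h | h | h | h
    · exact hnadj h
    · exact hxb h
    · exact hya h.symm
    · exact hab h

/-- the finals certificate -/
theorem finCheck_sound {m : ℕ} {steps : List Stp}
    {fin : List (Gr × List ℕ × ℕ × List (ℕ × List ℕ))}
    (h : finCheck m steps fin = true) {U : Finset V} {K : Finset ℕ} (hK : K.card = m + 2)
    (hP : ∀ U' ⊆ U, ∀ K' : Finset ℕ, K'.card = m + 1 → ColOn G U' m → MixOn G U' K') :
    ∀ s ∈ steps, s.kind = 2 → ∀ f : ℕ → V, Emb G U s.X f →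
      (∀ w ∈ U, ∃ i < s.X.length, f i = w) → MixOn G U K := by
  intro s hs hkind f hf hcov
  unfold finCheck at h
  rw [List.all_eq_true] at h
  have h1 := h s hs
  rw [Bool.or_eq_true, Bool.not_eq_true', nbeq_false] at h1
  rcases h1 with h1 | h1
  · exact absurd hkind h1
  · rw [List.any_eq_true] at h1
    obtain ⟨e, _, he⟩ := h1
    rw [Bool.and_eq_true] at he
    exact final_mix hf hcov hK hP he.2

include h2 h4 in
/-- 3-colourable `2K₂`-free graphs: 4 colours -/
theorem mix_three (K : Finset ℕ) (hK : K.card = 4) (U : Finset V) (hU : ColOn G U 3) :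
    MixOn G U K := by
  refine mix_induct K 3 (by omega) (fun U => ColOn G U 3) (fun U U' h hU => hU.mono h) ?_ U hU
  intro U hU hirr hdeg
  rcases U.eq_empty_or_nonempty with rfl | ⟨v, hv⟩
  · exact mixOn_empty K
  · -- an edge
    obtain ⟨w, hw, hvw⟩ : ∃ w ∈ U, G.Adj v w := by
      by_contra hcon
      push Not at hcon
      have := hdeg v hv ∅ (fun w hw h => absurd h (hcon w hw))
      simp at this
    have hsound := checkAll_sound h2 h4 hirr hdeg (nc := true) (fun _ => hU)
      (C := MixOn G U K) cert3 [] (by simp)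
      (finCheck_sound cert3_fin_ok hK (fun U' _ K' hK' hU' => mix_two h2 K' hK' U' hU'))
      cert3_ok
    have hmem : ∃ s ∈ cert3, s.X = [2, 1] := by
      have : (cert3.any fun s => decide (s.X = [2, 1])) = true := by decide +kernel
      rw [List.any_eq_true] at this
      obtain ⟨s, hs, h⟩ := this
      exact ⟨s, hs, of_decide_eq_true h⟩
    obtain ⟨s, hs, hsX⟩ := hmem
    refine hsound s hs (fun i => if i = 0 then v else w) ?_
    rw [hsX]
    refine ⟨?_, ?_, ?_⟩
    · intro i hi
      simp only [List.length_cons, List.length_nil] at hi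
      by_cases h : i = 0
      · simp [h, hv]
      · simp [h, hw]
    · intro i hi j hj hij
      simp only [List.length_cons, List.length_nil] at hi hj
      interval_cases i <;> interval_cases j <;> simp_all [hvw.ne, hvw.ne']
    · intro i hi j hj
      simp only [List.length_cons, List.length_nil] at hi hj
      interval_cases i <;> interval_cases j <;> simp [adjB, hvw, hvw.symm, Nat.testBit]

end Pool.Agent.Helper76.Recol
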